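/-!
Linear algebra on packed natural numbers, written with recursors so that the kernel evaluates it fast.
A vector is one natural number whose digits in base `2 ^ W` are the entries; a matrix is a list of
rows, in cells of sixteen. Nothing is imported, so that files of data and of checks load at once.
-/

namespace Pool.Agent.Lib.KLA

/-- Lists of numbers in cells of sixteen. -/
inductive Rows : Type
  | nil : Rows
  | cons (r0 r1 r2 r3 r4 r5 r6 r7 r8 r9 r10 r11 r12 r13 r14 r15 : Nat) (t : Rows) : Rows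

noncomputable section

/-- `f e`, with `e` evaluated first. -/
def strict {α : Type} (e : Nat) (f : Nat → α) : α :=
  Nat.rec (motive := fun _ => α) (f e) (fun m _ => f m) (Nat.add e 1)

/-- Case distinction on a boolean. -/
def cnd {α : Type} (b : Bool) (x y : α) : α := Bool.rec (motive := fun _ => α) y x b

/-- Conjunction. -/
def bnd (a b : Bool) : Bool := Bool.rec (motive := fun _ => Bool) false b a

/-- `f a ∧ f (a + 1) ∧ ... ∧ f (a + q - 1)`. -/
def allR (f : Nat → Bool) (a q : Nat) : Bool :=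
  Nat.rec (motive := fun _ => Bool) true (fun m ih => bnd (strict (Nat.add a m) f) ih) q

/-- `2 ^ b - 1`. -/
def low (b : Nat) : Nat := Nat.sub (Nat.shiftLeft 1 b) 1

/-- The vector with `p` entries `1`. -/
def ones (W p : Nat) : Nat := Nat.div (low (Nat.mul W p)) (low W)

/-- The vector with `p` entries `2 ^ b - 1`. -/
def msk (W b p : Nat) : Nat := Nat.mul (low b) (ones W p)

/-- Entry `k` of a list. -/
def lget (l : List Nat) : Nat → Nat :=
  List.rec (motive := fun _ => Nat → Nat) (fun _ => 0)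
    (fun x _ ih k => Nat.rec (motive := fun _ => Nat) x (fun m _ => ih m) k) l

/-- Row `k`. -/
def Rows.get (R : Rows) : Nat → Nat :=
  Rows.rec (motive := fun _ => Nat → Nat) (fun _ => 0)
    (fun r0 r1 r2 r3 r4 r5 r6 r7 r8 r9 r10 r11 r12 r13 r14 r15 _ ih k =>
      cnd (Nat.ble 16 k) (ih (Nat.sub k 16))
        (lget [r0, r1, r2, r3, r4, r5, r6, r7, r8, r9, r10, r11, r12, r13, r14, r15] k)) R

/-- The number of rows. -/
def Rows.len (R : Rows) : Nat :=
  Rows.rec (motive := fun _ => Nat) 0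
    (fun _ _ _ _ _ _ _ _ _ _ _ _ _ _ _ _ _ ih => Nat.add ih 16) R

/-- Apply `f` to every row. -/
def Rows.map (f : Nat → Nat) (R : Rows) : Rows :=
  Rows.rec (motive := fun _ => Rows) Rows.nil
    (fun r0 r1 r2 r3 r4 r5 r6 r7 r8 r9 r10 r11 r12 r13 r14 r15 _ ih => Rows.cons
      (f r0) (f r1) (f r2) (f r3) (f r4) (f r5) (f r6) (f r7) (f r8) (f r9) (f r10) (f r11) (f
      r12) (f r13) (f r14) (f r15) ih) R

/-- The sum of the rows. -/
def Rows.sum (R : Rows) : Nat :=
  Rows.rec (motive := fun _ => Nat) 0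
    (fun r0 r1 r2 r3 r4 r5 r6 r7 r8 r9 r10 r11 r12 r13 r14 r15 _ ih => Nat.add
      (Nat.add (Nat.add (Nat.add (Nat.add r0 r1) (Nat.add r2 r3)) (Nat.add (Nat.add r4 r5)
      (Nat.add r6 r7))) (Nat.add (Nat.add (Nat.add r8 r9) (Nat.add r10 r11)) (Nat.add (Nat.add
      r12 r13) (Nat.add r14 r15)))) ih) R

/-- Concatenation. -/
def Rows.app (R S : Rows) : Rows :=
  Rows.rec (motive := fun _ => Rows) S
    (fun r0 r1 r2 r3 r4 r5 r6 r7 r8 r9 r10 r11 r12 r13 r14 r15 _ ih => Rows.cons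
      r0 r1 r2 r3 r4 r5 r6 r7 r8 r9 r10 r11 r12 r13 r14 r15 ih) R

/-- The same rows, evaluated. -/
def Rows.force (R : Rows) : Rows :=
  Rows.rec (motive := fun _ => Rows) Rows.nil
    (fun r0 r1 r2 r3 r4 r5 r6 r7 r8 r9 r10 r11 r12 r13 r14 r15 _ ih =>
      strict r0 fun r0 => strict r1 fun r1 => strict r2 fun r2 => strict r3 fun r3 => strict r4
      fun r4 => strict r5 fun r5 => strict r6 fun r6 => strict r7 fun r7 => strict r8 fun r8 =>
      strict r9 fun r9 => strict r10 fun r10 => strict r11 fun r11 => strict r12 fun r12 =>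
      strict r13 fun r13 => strict r14 fun r14 => strict r15 fun r15 =>
      Rows.cons r0 r1 r2 r3 r4 r5 r6 r7 r8 r9 r10 r11 r12 r13 r14 r15 ih) R

/-- One cell of `dot`. -/
def cell (W M y r0 r1 r2 r3 r4 r5 r6 r7 r8 r9 r10 r11 r12 r13 r14 r15 : Nat) : Nat :=
  (Nat.add (Nat.add (Nat.add (Nat.add (Nat.mul (Nat.land y M) r0) (Nat.mul (Nat.land
  (Nat.shiftRight y W) M) r1)) (Nat.add (Nat.mul (Nat.land (Nat.shiftRight (Nat.shiftRight y W)
  W) M) r2) (Nat.mul (Nat.land (Nat.shiftRight (Nat.shiftRight (Nat.shiftRight y W) W) W) M)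
  r3))) (Nat.add (Nat.add (Nat.mul (Nat.land (Nat.shiftRight (Nat.shiftRight (Nat.shiftRight
  (Nat.shiftRight y W) W) W) W) M) r4) (Nat.mul (Nat.land (Nat.shiftRight (Nat.shiftRight
  (Nat.shiftRight (Nat.shiftRight (Nat.shiftRight y W) W) W) W) W) M) r5)) (Nat.add (Nat.mul
  (Nat.land (Nat.shiftRight (Nat.shiftRight (Nat.shiftRight (Nat.shiftRight (Nat.shiftRight
  (Nat.shiftRight y W) W) W) W) W) W) M) r6) (Nat.mul (Nat.land (Nat.shiftRight (Nat.shiftRight
  (Nat.shiftRight (Nat.shiftRight (Nat.shiftRight (Nat.shiftRight (Nat.shiftRight y W) W) W) W)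
  W) W) W) M) r7)))) (Nat.add (Nat.add (Nat.add (Nat.mul (Nat.land (Nat.shiftRight
  (Nat.shiftRight (Nat.shiftRight (Nat.shiftRight (Nat.shiftRight (Nat.shiftRight (Nat.shiftRight
  (Nat.shiftRight y W) W) W) W) W) W) W) W) M) r8) (Nat.mul (Nat.land (Nat.shiftRight
  (Nat.shiftRight (Nat.shiftRight (Nat.shiftRight (Nat.shiftRight (Nat.shiftRight (Nat.shiftRight
  (Nat.shiftRight (Nat.shiftRight y W) W) W) W) W) W) W) W) W) M) r9)) (Nat.add (Nat.mul
  (Nat.land (Nat.shiftRight (Nat.shiftRight (Nat.shiftRight (Nat.shiftRight (Nat.shiftRight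
  (Nat.shiftRight (Nat.shiftRight (Nat.shiftRight (Nat.shiftRight (Nat.shiftRight y W) W) W) W)
  W) W) W) W) W) W) M) r10) (Nat.mul (Nat.land (Nat.shiftRight (Nat.shiftRight (Nat.shiftRight
  (Nat.shiftRight (Nat.shiftRight (Nat.shiftRight (Nat.shiftRight (Nat.shiftRight (Nat.shiftRight
  (Nat.shiftRight (Nat.shiftRight y W) W) W) W) W) W) W) W) W) W) W) M) r11))) (Nat.add (Nat.add
  (Nat.mul (Nat.land (Nat.shiftRight (Nat.shiftRight (Nat.shiftRight (Nat.shiftRight
  (Nat.shiftRight (Nat.shiftRight (Nat.shiftRight (Nat.shiftRight (Nat.shiftRight (Nat.shiftRight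
  (Nat.shiftRight (Nat.shiftRight y W) W) W) W) W) W) W) W) W) W) W) W) M) r12) (Nat.mul
  (Nat.land (Nat.shiftRight (Nat.shiftRight (Nat.shiftRight (Nat.shiftRight (Nat.shiftRight
  (Nat.shiftRight (Nat.shiftRight (Nat.shiftRight (Nat.shiftRight (Nat.shiftRight (Nat.shiftRight
  (Nat.shiftRight (Nat.shiftRight y W) W) W) W) W) W) W) W) W) W) W) W) W) M) r13)) (Nat.add
  (Nat.mul (Nat.land (Nat.shiftRight (Nat.shiftRight (Nat.shiftRight (Nat.shiftRight
  (Nat.shiftRight (Nat.shiftRight (Nat.shiftRight (Nat.shiftRight (Nat.shiftRight (Nat.shiftRight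
  (Nat.shiftRight (Nat.shiftRight (Nat.shiftRight (Nat.shiftRight y W) W) W) W) W) W) W) W) W) W)
  W) W) W) W) M) r14) (Nat.mul (Nat.land (Nat.shiftRight (Nat.shiftRight (Nat.shiftRight
  (Nat.shiftRight (Nat.shiftRight (Nat.shiftRight (Nat.shiftRight (Nat.shiftRight (Nat.shiftRight
  (Nat.shiftRight (Nat.shiftRight (Nat.shiftRight (Nat.shiftRight (Nat.shiftRight (Nat.shiftRight
  y W) W) W) W) W) W) W) W) W) W) W) W) W) W) W) M) r15)))))

/-- `dot` with the masks given. -/
def dotA (W M W16 M16 : Nat) (R : Rows) : Nat → Nat :=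
  Rows.rec (motive := fun _ => Nat → Nat) (fun _ => 0)
    (fun r0 r1 r2 r3 r4 r5 r6 r7 r8 r9 r10 r11 r12 r13 r14 r15 _ ih x => Nat.add
      (cell W M (Nat.land x M16) r0 r1 r2 r3 r4 r5 r6 r7 r8 r9 r10 r11 r12 r13 r14 r15)
      (ih (Nat.shiftRight x W16))) R

/-- The sum over `k` of digit `k` of `x` (base `2 ^ W`) times row `k`. -/
def dot (W : Nat) (R : Rows) (x : Nat) : Nat :=
  strict W fun W => strict (low W) fun M => strict (Nat.mul W 16) fun W16 =>
    strict (low W16) fun M16 => dotA W M W16 M16 R x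

/-- `dotT` with the mask given. -/
def dotB (s M : Nat) (A : Rows) : Rows → Nat :=
  Rows.rec (motive := fun _ => Rows → Nat) (fun _ => 0)
    (fun a0 a1 a2 a3 a4 a5 a6 a7 a8 a9 a10 a11 a12 a13 a14 a15 _ ih C => Rows.rec (motive := fun _ => Nat) 0
      (fun r0 r1 r2 r3 r4 r5 r6 r7 r8 r9 r10 r11 r12 r13 r14 r15 t _ => Nat.add
        (Nat.add (Nat.add (Nat.add (Nat.add (Nat.mul (Nat.land (Nat.shiftRight a0 s) M) r0)
        (Nat.mul (Nat.land (Nat.shiftRight a1 s) M) r1)) (Nat.add (Nat.mul (Nat.land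
        (Nat.shiftRight a2 s) M) r2) (Nat.mul (Nat.land (Nat.shiftRight a3 s) M) r3))) (Nat.add
        (Nat.add (Nat.mul (Nat.land (Nat.shiftRight a4 s) M) r4) (Nat.mul (Nat.land
        (Nat.shiftRight a5 s) M) r5)) (Nat.add (Nat.mul (Nat.land (Nat.shiftRight a6 s) M) r6)
        (Nat.mul (Nat.land (Nat.shiftRight a7 s) M) r7)))) (Nat.add (Nat.add (Nat.add (Nat.mul
        (Nat.land (Nat.shiftRight a8 s) M) r8) (Nat.mul (Nat.land (Nat.shiftRight a9 s) M) r9))
        (Nat.add (Nat.mul (Nat.land (Nat.shiftRight a10 s) M) r10) (Nat.mul (Nat.land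
        (Nat.shiftRight a11 s) M) r11))) (Nat.add (Nat.add (Nat.mul (Nat.land (Nat.shiftRight a12
        s) M) r12) (Nat.mul (Nat.land (Nat.shiftRight a13 s) M) r13)) (Nat.add (Nat.mul (Nat.land
        (Nat.shiftRight a14 s) M) r14) (Nat.mul (Nat.land (Nat.shiftRight a15 s) M) r15)))))
        (ih t)) C) A

/-- The sum over `k` of the `b` bits from position `s` of row `k` of `A` times row `k` of `C`. -/
def dotT (s b : Nat) (A C : Rows) : Nat :=
  strict s fun s => strict (low b) fun M => dotB s M A C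

/-- `g` cells made from one: shift by `s, s + b, ...` and mask by `M`. -/
def rep (b M z0 z1 z2 z3 z4 z5 z6 z7 z8 z9 z10 z11 z12 z13 z14 z15 : Nat) (t : Rows) (g : Nat) : Nat → Rows :=
  Nat.rec (motive := fun _ => Nat → Rows) (fun _ => t)
    (fun _ ih s => strict s fun s => Rows.cons
        (Nat.land (Nat.shiftRight z0 s) M) (Nat.land (Nat.shiftRight z1 s) M) (Nat.land
        (Nat.shiftRight z2 s) M) (Nat.land (Nat.shiftRight z3 s) M) (Nat.land (Nat.shiftRight z4
        s) M) (Nat.land (Nat.shiftRight z5 s) M) (Nat.land (Nat.shiftRight z6 s) M) (Nat.land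
        (Nat.shiftRight z7 s) M) (Nat.land (Nat.shiftRight z8 s) M) (Nat.land (Nat.shiftRight z9
        s) M) (Nat.land (Nat.shiftRight z10 s) M) (Nat.land (Nat.shiftRight z11 s) M) (Nat.land
        (Nat.shiftRight z12 s) M) (Nat.land (Nat.shiftRight z13 s) M) (Nat.land (Nat.shiftRight
        z14 s) M) (Nat.land (Nat.shiftRight z15 s) M)
        (ih (Nat.add s b))) g

/-- Every stored number holds `g` interleaved rows of `b`-bit entries; drop `s` bits, mask by `M`. -/
def unp (g b s M : Nat) (Z : Rows) : Rows :=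
  Rows.rec (motive := fun _ => Rows) Rows.nil
    (fun z0 z1 z2 z3 z4 z5 z6 z7 z8 z9 z10 z11 z12 z13 z14 z15 _ ih =>
      rep b M z0 z1 z2 z3 z4 z5 z6 z7 z8 z9 z10 z11 z12 z13 z14 z15 ih g s) Z

/-- Triangular storage: cell number `c` starts `D * c` bits later. The cells `0, ..., n - 1`, cut
at bit `D * (n - 1)`. -/
def tri (g b D M : Nat) (Z : Rows) : Nat → Rows :=
  Rows.rec (motive := fun _ => Nat → Rows) (fun _ => Rows.nil)
    (fun z0 z1 z2 z3 z4 z5 z6 z7 z8 z9 z10 z11 z12 z13 z14 z15 _ ih n =>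
      Nat.rec (motive := fun _ => Rows) Rows.nil (fun m _ =>
        rep b M z0 z1 z2 z3 z4 z5 z6 z7 z8 z9 z10 z11 z12 z13 z14 z15 (ih m) g (Nat.mul D m)) n) Z

/-- `neg ≤ pos` and all digits of `pos - neg` are inside the mask. -/
def small (pos neg M : Nat) : Bool :=
  bnd (Nat.ble neg pos) (Nat.beq (Nat.land (Nat.sub pos neg) M) (Nat.sub pos neg))

/-- Rows `a, ..., a + q - 1` of the upper triangle of `m - Rᵀ R`, from column `i0` on. `R` holds the
rows of the factor cut at column `i0` (`b`-bit digits, offset `K`), `m i` passes on the row `i` of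
the matrix cut at column `i0` (offset `KM`); the entries of the difference are in
`[-2 ^ e, 2 ^ e)`. -/
def psdRows (W b e KM p G i0 : Nat) (R : Rows) (m : Nat → (Nat → Bool) → Bool) (a q : Nat) :
    Bool :=
  strict W fun W => strict (Nat.shiftLeft 1 (Nat.sub b 1)) fun K =>
  (fun R : Rows => (fun (one S : Nat) (A : Rows) =>
    (fun (c1 c2 M : Nat) =>
      allR (fun i => strict (Nat.mul W (Nat.sub i i0)) fun s =>
        bnd (bnd (Nat.ble i0 i) (Nat.ble (Nat.add i 1) (Nat.add i0 G)))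
          (m i fun y => small
            (Nat.add (Nat.add y c1)
              (Nat.mul (Nat.mul K (Nat.land (Nat.shiftRight S s) (low W))) one))
            (Nat.add (dotT s b A R) c2) M)) a q)
      (Nat.add (Nat.mul K S) (Nat.shiftLeft one e))
      (Nat.mul (Nat.add KM (Nat.mul R.len (Nat.mul K K))) one)
      (Nat.mul (low (Nat.add e 1)) one))
    (ones W p) R.sum (strict (low (Nat.mul W G)) fun L => (R.map fun r => Nat.land r L).force))
    R.force

/-- `psdRows` for a factor in triangular storage; block number `c` has `16 * g` rows. -/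
def psdTri (W b e KM N g : Nat) (Z : Rows) (m : Nat → Nat → (Nat → Bool) → Bool) (c a q : Nat) :
    Bool :=
  strict (Nat.mul 16 g) fun G => strict (Nat.mul G c) fun i0 => strict (Nat.sub N i0) fun p =>
    psdRows W b e KM p G i0 (tri g b (Nat.mul W G) (msk W b p) Z (Nat.add c 1)) (m c) a q

/-- Every `i < n` lies in a range that passed the check. -/
def Cov (f : Nat → Nat → Nat → Bool) (n : Nat) : Prop :=
  ∀ i, i < n → ∃ c a q, a ≤ i ∧ i < a + q ∧ f c a q = true

theorem Cov.zero (f : Nat → Nat → Nat → Bool) : Cov f 0 := fun _ h => absurd h (Nat.not_lt_zero _)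

theorem Cov.step {f : Nat → Nat → Nat → Bool} {c a q n : Nat} (hf : f c a q = true) (e : a + q = n)
    (h : Cov f a) : Cov f n := fun i hi =>
  (Nat.lt_or_ge i a).elim (h i) fun h1 => ⟨c, a, q, h1, e ▸ hi, hf⟩

/-- The sum of the digits, when it is less than `2 ^ W - 1`. -/
def dsum (W x : Nat) : Nat := Nat.mod x (low W)

/-- Drop `d` entries, keep `q`, drop the last `s` bits of each. -/
def rnd (W s d q x : Nat) : Nat :=
  Nat.land (Nat.shiftRight x (Nat.add (Nat.mul W d) s)) (msk W (Nat.sub W s) q)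

/-- Continue with `pos - neg` if its digits are inside the mask. -/
def chk (pos neg M : Nat) (f : Nat → Bool) : Bool := bnd (small pos neg M) (f (Nat.sub pos neg))

/-- Vector times matrix. `x` has offset `Kx`, the `n` rows `D` have offset `K` and sum `S`; the
product, with offset `2 ^ e`, is passed on if its entries are in `[-2 ^ e, 2 ^ e)`. -/
def vm (W p n Kx K e : Nat) (D : Rows) (S x : Nat) (f : Nat → Bool) : Bool :=
  chk (Nat.add (dot W D x)
      (Nat.mul (Nat.add (Nat.shiftLeft 1 e) (Nat.mul n (Nat.mul Kx K))) (ones W p)))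
    (Nat.add (Nat.mul Kx S) (Nat.mul (Nat.mul K (dsum W x)) (ones W p)))
    (msk W (Nat.add e 1) p) f

/-- Column `d` of `A` (offset `Kx`, sum of the rows `SA`) times the matrix `D`. -/
def vmT (W p n Kx K e : Nat) (A : Rows) (SA d : Nat) (D : Rows) (S : Nat) (f : Nat → Bool) : Bool :=
  chk (Nat.add (dotT (Nat.mul W d) W A D)
      (Nat.mul (Nat.add (Nat.shiftLeft 1 e) (Nat.mul n (Nat.mul Kx K))) (ones W p)))
    (Nat.add (Nat.mul Kx S)
      (Nat.mul (Nat.mul K (Nat.land (Nat.shiftRight SA (Nat.mul W d)) (low W))) (ones W p)))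
    (msk W (Nat.add e 1) p) f

/-- Change the offset from `K` to `2 ^ e`, if the entries are in `[-2 ^ e, 2 ^ e)`. -/
def tight (W p K e x : Nat) (f : Nat → Bool) : Bool :=
  chk (Nat.add x (Nat.shiftLeft (ones W p) e)) (Nat.mul K (ones W p)) (msk W (Nat.add e 1) p) f

/-- The opposite of a vector with offset `K`. -/
def vneg (W p K x : Nat) : Nat := Nat.sub (Nat.mul (Nat.mul 2 K) (ones W p)) x

/-- One cell of `had`. -/
def hcell (W M x y : Nat) : Nat :=
  (Nat.add (Nat.mul (Nat.land x M) (Nat.land y M)) (Nat.shiftLeft (Nat.add (Nat.mul (Nat.land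
  (Nat.shiftRight x W) M) (Nat.land (Nat.shiftRight y W) M)) (Nat.shiftLeft (Nat.add (Nat.mul
  (Nat.land (Nat.shiftRight (Nat.shiftRight x W) W) M) (Nat.land (Nat.shiftRight (Nat.shiftRight
  y W) W) M)) (Nat.shiftLeft (Nat.add (Nat.mul (Nat.land (Nat.shiftRight (Nat.shiftRight
  (Nat.shiftRight x W) W) W) M) (Nat.land (Nat.shiftRight (Nat.shiftRight (Nat.shiftRight y W) W)
  W) M)) (Nat.shiftLeft (Nat.add (Nat.mul (Nat.land (Nat.shiftRight (Nat.shiftRight
  (Nat.shiftRight (Nat.shiftRight x W) W) W) W) M) (Nat.land (Nat.shiftRight (Nat.shiftRight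
  (Nat.shiftRight (Nat.shiftRight y W) W) W) W) M)) (Nat.shiftLeft (Nat.add (Nat.mul (Nat.land
  (Nat.shiftRight (Nat.shiftRight (Nat.shiftRight (Nat.shiftRight (Nat.shiftRight x W) W) W) W)
  W) M) (Nat.land (Nat.shiftRight (Nat.shiftRight (Nat.shiftRight (Nat.shiftRight (Nat.shiftRight
  y W) W) W) W) W) M)) (Nat.shiftLeft (Nat.add (Nat.mul (Nat.land (Nat.shiftRight (Nat.shiftRight
  (Nat.shiftRight (Nat.shiftRight (Nat.shiftRight (Nat.shiftRight x W) W) W) W) W) W) M)
  (Nat.land (Nat.shiftRight (Nat.shiftRight (Nat.shiftRight (Nat.shiftRight (Nat.shiftRight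
  (Nat.shiftRight y W) W) W) W) W) W) M)) (Nat.shiftLeft (Nat.add (Nat.mul (Nat.land
  (Nat.shiftRight (Nat.shiftRight (Nat.shiftRight (Nat.shiftRight (Nat.shiftRight (Nat.shiftRight
  (Nat.shiftRight x W) W) W) W) W) W) W) M) (Nat.land (Nat.shiftRight (Nat.shiftRight
  (Nat.shiftRight (Nat.shiftRight (Nat.shiftRight (Nat.shiftRight (Nat.shiftRight y W) W) W) W)
  W) W) W) M)) (Nat.shiftLeft (Nat.add (Nat.mul (Nat.land (Nat.shiftRight (Nat.shiftRight
  (Nat.shiftRight (Nat.shiftRight (Nat.shiftRight (Nat.shiftRight (Nat.shiftRight (Nat.shiftRight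
  x W) W) W) W) W) W) W) W) M) (Nat.land (Nat.shiftRight (Nat.shiftRight (Nat.shiftRight
  (Nat.shiftRight (Nat.shiftRight (Nat.shiftRight (Nat.shiftRight (Nat.shiftRight y W) W) W) W)
  W) W) W) W) M)) (Nat.shiftLeft (Nat.add (Nat.mul (Nat.land (Nat.shiftRight (Nat.shiftRight
  (Nat.shiftRight (Nat.shiftRight (Nat.shiftRight (Nat.shiftRight (Nat.shiftRight (Nat.shiftRight
  (Nat.shiftRight x W) W) W) W) W) W) W) W) W) M) (Nat.land (Nat.shiftRight (Nat.shiftRight
  (Nat.shiftRight (Nat.shiftRight (Nat.shiftRight (Nat.shiftRight (Nat.shiftRight (Nat.shiftRight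
  (Nat.shiftRight y W) W) W) W) W) W) W) W) W) M)) (Nat.shiftLeft (Nat.add (Nat.mul (Nat.land
  (Nat.shiftRight (Nat.shiftRight (Nat.shiftRight (Nat.shiftRight (Nat.shiftRight (Nat.shiftRight
  (Nat.shiftRight (Nat.shiftRight (Nat.shiftRight (Nat.shiftRight x W) W) W) W) W) W) W) W) W) W)
  M) (Nat.land (Nat.shiftRight (Nat.shiftRight (Nat.shiftRight (Nat.shiftRight (Nat.shiftRight
  (Nat.shiftRight (Nat.shiftRight (Nat.shiftRight (Nat.shiftRight (Nat.shiftRight y W) W) W) W)
  W) W) W) W) W) W) M)) (Nat.shiftLeft (Nat.add (Nat.mul (Nat.land (Nat.shiftRight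
  (Nat.shiftRight (Nat.shiftRight (Nat.shiftRight (Nat.shiftRight (Nat.shiftRight (Nat.shiftRight
  (Nat.shiftRight (Nat.shiftRight (Nat.shiftRight (Nat.shiftRight x W) W) W) W) W) W) W) W) W) W)
  W) M) (Nat.land (Nat.shiftRight (Nat.shiftRight (Nat.shiftRight (Nat.shiftRight (Nat.shiftRight
  (Nat.shiftRight (Nat.shiftRight (Nat.shiftRight (Nat.shiftRight (Nat.shiftRight (Nat.shiftRight
  y W) W) W) W) W) W) W) W) W) W) W) M)) (Nat.shiftLeft (Nat.add (Nat.mul (Nat.land
  (Nat.shiftRight (Nat.shiftRight (Nat.shiftRight (Nat.shiftRight (Nat.shiftRight (Nat.shiftRight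
  (Nat.shiftRight (Nat.shiftRight (Nat.shiftRight (Nat.shiftRight (Nat.shiftRight (Nat.shiftRight
  x W) W) W) W) W) W) W) W) W) W) W) W) M) (Nat.land (Nat.shiftRight (Nat.shiftRight
  (Nat.shiftRight (Nat.shiftRight (Nat.shiftRight (Nat.shiftRight (Nat.shiftRight (Nat.shiftRight
  (Nat.shiftRight (Nat.shiftRight (Nat.shiftRight (Nat.shiftRight y W) W) W) W) W) W) W) W) W) W)
  W) W) M)) (Nat.shiftLeft (Nat.add (Nat.mul (Nat.land (Nat.shiftRight (Nat.shiftRight
  (Nat.shiftRight (Nat.shiftRight (Nat.shiftRight (Nat.shiftRight (Nat.shiftRight (Nat.shiftRight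
  (Nat.shiftRight (Nat.shiftRight (Nat.shiftRight (Nat.shiftRight (Nat.shiftRight x W) W) W) W)
  W) W) W) W) W) W) W) W) W) M) (Nat.land (Nat.shiftRight (Nat.shiftRight (Nat.shiftRight
  (Nat.shiftRight (Nat.shiftRight (Nat.shiftRight (Nat.shiftRight (Nat.shiftRight (Nat.shiftRight
  (Nat.shiftRight (Nat.shiftRight (Nat.shiftRight (Nat.shiftRight y W) W) W) W) W) W) W) W) W) W)
  W) W) W) M)) (Nat.shiftLeft (Nat.add (Nat.mul (Nat.land (Nat.shiftRight (Nat.shiftRight
  (Nat.shiftRight (Nat.shiftRight (Nat.shiftRight (Nat.shiftRight (Nat.shiftRight (Nat.shiftRight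
  (Nat.shiftRight (Nat.shiftRight (Nat.shiftRight (Nat.shiftRight (Nat.shiftRight (Nat.shiftRight
  x W) W) W) W) W) W) W) W) W) W) W) W) W) W) M) (Nat.land (Nat.shiftRight (Nat.shiftRight
  (Nat.shiftRight (Nat.shiftRight (Nat.shiftRight (Nat.shiftRight (Nat.shiftRight (Nat.shiftRight
  (Nat.shiftRight (Nat.shiftRight (Nat.shiftRight (Nat.shiftRight (Nat.shiftRight (Nat.shiftRight
  y W) W) W) W) W) W) W) W) W) W) W) W) W) W) M)) (Nat.shiftLeft (Nat.mul (Nat.land
  (Nat.shiftRight (Nat.shiftRight (Nat.shiftRight (Nat.shiftRight (Nat.shiftRight (Nat.shiftRight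
  (Nat.shiftRight (Nat.shiftRight (Nat.shiftRight (Nat.shiftRight (Nat.shiftRight (Nat.shiftRight
  (Nat.shiftRight (Nat.shiftRight (Nat.shiftRight x W) W) W) W) W) W) W) W) W) W) W) W) W) W) W)
  M) (Nat.land (Nat.shiftRight (Nat.shiftRight (Nat.shiftRight (Nat.shiftRight (Nat.shiftRight
  (Nat.shiftRight (Nat.shiftRight (Nat.shiftRight (Nat.shiftRight (Nat.shiftRight (Nat.shiftRight
  (Nat.shiftRight (Nat.shiftRight (Nat.shiftRight (Nat.shiftRight y W) W) W) W) W) W) W) W) W) W)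
  W) W) W) W) W) M)) W)) W)) W)) W)) W)) W)) W)) W)) W)) W)) W)) W)) W)) W)) W))

/-- `had` with the masks given. -/
def hadA (W M W16 M16 n : Nat) : Nat → Nat → Nat :=
  Nat.rec (motive := fun _ => Nat → Nat → Nat) (fun _ _ => 0)
    (fun _ ih x y => Nat.add (hcell W M (Nat.land x M16) (Nat.land y M16))
      (Nat.shiftLeft (ih (Nat.shiftRight x W16) (Nat.shiftRight y W16)) W16)) n

/-- The vector of the products of the first `16 * n` digits of `x` and `y`. -/
def had (W n x y : Nat) : Nat :=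
  strict W fun W => strict (low W) fun M => strict (Nat.mul W 16) fun W16 =>
    strict (low W16) fun M16 => hadA W M W16 M16 n x y

/-- Entrywise product of vectors of length `16 * n` with offsets `Kx`, `Ky`; the result, with
offset `2 ^ e`, is passed on if its entries are in `[-2 ^ e, 2 ^ e)`. -/
def vv (W n Kx Ky e x y : Nat) (f : Nat → Bool) : Bool :=
  chk (Nat.add (had W n x y)
      (Nat.mul (Nat.add (Nat.shiftLeft 1 e) (Nat.mul Kx Ky)) (ones W (Nat.mul 16 n))))
    (Nat.add (Nat.mul Kx y) (Nat.mul Ky x)) (msk W (Nat.add e 1) (Nat.mul 16 n)) f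

/-- Row `i` of `-(P A + Aᵀ P)` cut at column `G * c`, with offset `2 ^ (e + 1)`, for stored `N × N`
matrices `P` (symmetric) and `A`. -/
def lyap (W g b N e G : Nat) (P A : Rows) (c i : Nat) (f : Nat → Bool) : Bool :=
  strict (Nat.mul G c) fun i0 => strict (Nat.sub N i0) fun p => strict (Nat.mul W i0) fun s =>
  strict (Nat.shiftLeft 1 (Nat.sub b 1)) fun K =>
  (fun Ac Ab Pc : Rows =>
    vm W p N K K e Ac Ac.sum ((unp g b 0 (msk W b N) P).get i) fun y1 =>
    vmT W p N K K e Ab Ab.sum (Nat.sub i i0) Pc Pc.sum fun y2 =>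
    f (vneg W p (Nat.shiftLeft 1 (Nat.add e 1)) (Nat.add y1 y2)))
  (unp g b s (msk W b p) A).force (unp g b s (msk W b G) A).force (unp g b s (msk W b p) P).force

/-- `col` with the masks given. -/
def colA (W s M W16 : Nat) (A : Rows) : Nat :=
  Rows.rec (motive := fun _ => Nat) 0
    (fun a0 a1 a2 a3 a4 a5 a6 a7 a8 a9 a10 a11 a12 a13 a14 a15 _ ih => Nat.add
      (Nat.add (Nat.land (Nat.shiftRight a0 s) M) (Nat.shiftLeft (Nat.add (Nat.land
      (Nat.shiftRight a1 s) M) (Nat.shiftLeft (Nat.add (Nat.land (Nat.shiftRight a2 s) M)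
      (Nat.shiftLeft (Nat.add (Nat.land (Nat.shiftRight a3 s) M) (Nat.shiftLeft (Nat.add
      (Nat.land (Nat.shiftRight a4 s) M) (Nat.shiftLeft (Nat.add (Nat.land (Nat.shiftRight a5 s)
      M) (Nat.shiftLeft (Nat.add (Nat.land (Nat.shiftRight a6 s) M) (Nat.shiftLeft (Nat.add
      (Nat.land (Nat.shiftRight a7 s) M) (Nat.shiftLeft (Nat.add (Nat.land (Nat.shiftRight a8 s)
      M) (Nat.shiftLeft (Nat.add (Nat.land (Nat.shiftRight a9 s) M) (Nat.shiftLeft (Nat.add
      (Nat.land (Nat.shiftRight a10 s) M) (Nat.shiftLeft (Nat.add (Nat.land (Nat.shiftRight a11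
      s) M) (Nat.shiftLeft (Nat.add (Nat.land (Nat.shiftRight a12 s) M) (Nat.shiftLeft (Nat.add
      (Nat.land (Nat.shiftRight a13 s) M) (Nat.shiftLeft (Nat.add (Nat.land (Nat.shiftRight a14
      s) M) (Nat.shiftLeft (Nat.land (Nat.shiftRight a15 s) M) W)) W)) W)) W)) W)) W)) W)) W))
      W)) W)) W)) W)) W)) W)) W))
      (Nat.shiftLeft ih W16)) A

/-- Column `d` of `A` as a vector. -/
def col (W d : Nat) (A : Rows) : Nat :=
  strict W fun W => strict (Nat.mul W d) fun s => strict (low W) fun M =>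
    strict (Nat.mul W 16) fun W16 => colA W s M W16 A

/-- Rows `a, ..., a + q - 1` of a stored `N × N` matrix are equal to the columns. -/
def symRows (W g b N G : Nat) (P : Rows) (c a q : Nat) : Bool :=
  strict (Nat.mul G c) fun i0 => strict (Nat.mul W i0) fun s =>
  (fun Pb : Rows => allR (fun i => bnd (bnd (Nat.ble i0 i) (Nat.ble (Nat.add i 1) (Nat.add i0 G)))
    (Nat.beq (col W (Nat.sub i i0) Pb) ((unp g b 0 (msk W b N) P).get i))) a q)
  (unp g b s (msk W b G) P).force

/-- From a vector with offset `2 ^ e` and digits below `2 ^ (e + 1)`, the vector whose entries are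
`v` for `v ≥ 0` and `-v - 1` for `v < 0`. -/
def vabs (W e p x : Nat) : Nat :=
  Nat.xor (Nat.land x (msk W e p))
    (Nat.mul (low e) (Nat.sub (ones W p) (Nat.land (Nat.shiftRight x e) (ones W p))))

end

end Pool.Agent.Lib.KLA
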