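import Mathlib
import Pool.Agent.Lib.KLA.Defs

/-!
Meaning of the packed operations: `pk W p v` is the number with signed digits `v 0, ..., v (p-1)` in
base `2 ^ W`, `bits z s b` the `b` bits of `z` from position `s` on.
-/

namespace Pool.Agent.Lib.KLA

open Finset

/-- The `b` bits of `z` from position `s` on. -/
def bits (z s b : ℕ) : ℕ := z / 2 ^ s % 2 ^ b

/-- The number with the signed digits `v j`, `j < p`, in base `2 ^ W`. -/
def pk (W p : ℕ) (v : ℕ → ℤ) : ℤ := ∑ j ∈ range p, v j * 2 ^ (W * j)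

theorem strict_eq {α : Type} (e : ℕ) (f : ℕ → α) : strict e f = f e := rfl

theorem cnd_eq {α : Type} (b : Bool) (x y : α) : cnd b x y = if b = true then x else y := by
  cases b <;> rfl

theorem bnd_iff (a b : Bool) : bnd a b = true ↔ a = true ∧ b = true := by
  cases a <;> cases b <;> simp [bnd]

theorem allR_spec {f : ℕ → Bool} {a : ℕ} : ∀ {q : ℕ}, allR f a q = true →
    ∀ i, a ≤ i → i < a + q → f i = true
  | 0, _, i, h1, h2 => by omega
  | q + 1, h, i, h1, h2 => by
    have h' : bnd (f (a + q)) (allR f a q) = true := h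
    rw [bnd_iff] at h'
    rcases Nat.lt_or_ge i (a + q) with h3 | h3
    · exact allR_spec h'.2 i h1 h3
    · rw [show i = a + q by omega]
      exact h'.1

theorem low_eq (b : ℕ) : low b = 2 ^ b - 1 := by
  change 1 <<< b - 1 = _
  rw [Nat.shiftLeft_eq, one_mul]

theorem land_low (z b : ℕ) : Nat.land z (low b) = z % 2 ^ b := by
  rw [low_eq]
  exact Nat.and_two_pow_sub_one_eq_mod z b

theorem shr_eq (z s : ℕ) : Nat.shiftRight z s = z / 2 ^ s := Nat.shiftRight_eq_div_pow z s

theorem shl_eq (z s : ℕ) : Nat.shiftLeft z s = z * 2 ^ s := Nat.shiftLeft_eq z s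

theorem land_shr (z s b : ℕ) : Nat.land (Nat.shiftRight z s) (low b) = bits z s b := by
  rw [land_low, shr_eq, bits]

theorem bits_lt (z s b : ℕ) : bits z s b < 2 ^ b := Nat.mod_lt _ (by positivity)

@[simp] theorem bits_zero (s b : ℕ) : bits 0 s b = 0 := by simp [bits]

theorem bits_div (z t s b : ℕ) : bits (z / 2 ^ t) s b = bits z (t + s) b := by
  rw [bits, bits, Nat.div_div_eq_div_mul, ← pow_add]

theorem bits_mod {z t s b : ℕ} (h : s + b ≤ t) : bits (z % 2 ^ t) s b = bits z s b := by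
  refine Nat.eq_of_testBit_eq fun i => ?_
  simp only [bits, Nat.testBit_mod_two_pow, Nat.testBit_div_two_pow]
  by_cases hi : i < b
  · simp [hi, show i + s < t by omega]
  · simp [hi]

theorem pk_succ (W p : ℕ) (v : ℕ → ℤ) :
    pk W (p + 1) v = v 0 + 2 ^ W * pk W p fun j => v (j + 1) := by
  rw [pk, sum_range_succ', pk, mul_sum, add_comm]
  simp only [mul_zero, pow_zero, mul_one]
  congr 1
  refine sum_congr rfl fun j _ => ?_
  rw [mul_add, pow_add, mul_one]
  ring

theorem pk_congr {W p : ℕ} {v w : ℕ → ℤ} (h : ∀ j < p, v j = w j) : pk W p v = pk W p w :=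
  sum_congr rfl fun j hj => by rw [h j (mem_range.1 hj)]

theorem pk_add (W p : ℕ) (v w : ℕ → ℤ) : pk W p v + pk W p w = pk W p fun j => v j + w j := by
  simp only [pk, add_mul, sum_add_distrib]

theorem pk_sub (W p : ℕ) (v w : ℕ → ℤ) : pk W p v - pk W p w = pk W p fun j => v j - w j := by
  simp only [pk, sub_mul, sum_sub_distrib]

theorem pk_mul (W p : ℕ) (c : ℤ) (v : ℕ → ℤ) : c * pk W p v = pk W p fun j => c * v j := by
  simp only [pk, mul_sum, mul_assoc]

theorem pk_sum (W p : ℕ) {ι : Type} (s : Finset ι) (v : ι → ℕ → ℤ) :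
    ∑ k ∈ s, pk W p (v k) = pk W p fun j => ∑ k ∈ s, v k j := by
  simp only [pk, sum_mul]
  exact sum_comm

theorem pk_nonneg {W p : ℕ} {v : ℕ → ℤ} (h : ∀ j < p, 0 ≤ v j) : 0 ≤ pk W p v :=
  sum_nonneg fun j hj => mul_nonneg (h j (mem_range.1 hj)) (by positivity)

/-- Digits are unique when they differ by less than the base. -/
theorem pk_inj {W : ℕ} : ∀ {p : ℕ} {v w : ℕ → ℤ}, pk W p v = pk W p w →
    (∀ j < p, |v j - w j| < 2 ^ W) → ∀ j < p, v j = w j
  | 0, _, _, _, _, j, hj => by omega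
  | p + 1, v, w, h, hb, j, hj => by
    rw [pk_succ, pk_succ] at h
    have h0 : v 0 = w 0 := by
      have hd : (2 : ℤ) ^ W ∣ v 0 - w 0 :=
        ⟨(pk W p fun j => w (j + 1)) - pk W p fun j => v (j + 1), by linear_combination h⟩
      exact sub_eq_zero.1 (Int.eq_zero_of_abs_lt_dvd hd (hb 0 (by omega)))
    cases j with
    | zero => exact h0
    | succ j =>
      rw [h0, add_right_inj] at h
      exact pk_inj (v := fun j => v (j + 1)) (w := fun j => w (j + 1))
        (mul_left_cancel₀ (by positivity) h) (fun j hj => hb (j + 1) (by omega)) j (by omega)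

theorem ones_nat {W : ℕ} (hW : 0 < W) (p : ℕ) : ones W p = ∑ j ∈ range p, 2 ^ (W * j) := by
  have h : 2 ≤ 2 ^ W := by
    calc 2 = 2 ^ 1 := rfl
      _ ≤ 2 ^ W := Nat.pow_le_pow_right (by norm_num) hW
  change low (W * p) / low W = _
  rw [low_eq, low_eq, pow_mul, ← Nat.geomSum_eq h]
  exact sum_congr rfl fun j _ => (pow_mul 2 W j).symm

theorem ones_eq {W : ℕ} (hW : 0 < W) (p : ℕ) : (ones W p : ℤ) = pk W p fun _ => 1 := by
  rw [ones_nat hW, pk]
  simp

theorem msk_succ {W : ℕ} (hW : 0 < W) (b p : ℕ) :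
    msk W b (p + 1) = low b + 2 ^ W * msk W b p := by
  change low b * ones W (p + 1) = low b + 2 ^ W * (low b * ones W p)
  rw [ones_nat hW, ones_nat hW, sum_range_succ', mul_add, add_comm, mul_left_comm, mul_sum (a := 2 ^ W)]
  simp only [mul_zero, pow_zero, mul_one]
  congr 2
  exact sum_congr rfl fun j _ => by rw [mul_add, pow_add, mul_one, mul_comm]

/-- A masked number is a packed vector. -/
theorem land_msk {W b : ℕ} (hW : 0 < W) (hb : b ≤ W) : ∀ (p z : ℕ),
    (Nat.land z (msk W b p) : ℤ) = pk W p fun j => bits z (W * j) b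
  | 0, z => by
    have : msk W b 0 = 0 := by
      change low b * ones W 0 = 0
      rw [ones_nat hW]
      simp
    rw [this]
    change ((z &&& 0 : ℕ) : ℤ) = _
    simp [pk]
  | p + 1, z => by
    have hl : low b < 2 ^ W := by
      rw [low_eq]
      have : 2 ^ b ≤ 2 ^ W := Nat.pow_le_pow_right (by norm_num) hb
      have : 0 < 2 ^ b := by positivity
      omega
    have h1 : msk W b (p + 1) % 2 ^ W = low b := by
      rw [msk_succ hW, Nat.add_mul_mod_self_left, Nat.mod_eq_of_lt hl]
    have h2 : msk W b (p + 1) / 2 ^ W = msk W b p := by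
      rw [msk_succ hW, Nat.add_mul_div_left _ _ (by positivity), Nat.div_eq_of_lt hl, zero_add]
    have h3 : Nat.land z (msk W b (p + 1)) =
        Nat.land (z % 2 ^ W) (low b) + 2 ^ W * Nat.land (z / 2 ^ W) (msk W b p) := by
      change z &&& _ = (z % 2 ^ W &&& _) + 2 ^ W * (z / 2 ^ W &&& _)
      rw [← h2, ← h1, ← Nat.and_mod_two_pow, ← Nat.and_div_two_pow, Nat.mod_add_div]
    rw [h3, pk_succ, land_low, Nat.mod_mod_of_dvd _ (pow_dvd_pow 2 hb)]
    push_cast
    rw [land_msk hW hb p]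
    congr 1
    · simp [bits]
    · congr 1
      refine pk_congr fun j _ => ?_
      rw [bits_div, mul_add, mul_one, add_comm]

/-- A shifted and masked number is a packed vector. -/
theorem land_shr_msk {W b : ℕ} (hW : 0 < W) (hb : b ≤ W) (p z s : ℕ) :
    (Nat.land (Nat.shiftRight z s) (msk W b p) : ℤ) = pk W p fun j => bits z (s + W * j) b := by
  rw [land_msk hW hb, shr_eq]
  exact pk_congr fun j _ => by rw [bits_div]

/-- Reading a digit. -/
theorem bits_pk {W b : ℕ} (hb : b ≤ W) : ∀ {p x : ℕ} {v : ℕ → ℤ}, (x : ℤ) = pk W p v →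
    (∀ j < p, 0 ≤ v j ∧ v j < 2 ^ b) → ∀ j < p, (bits x (W * j) b : ℤ) = v j
  | 0, _, _, _, _, j, hj => by omega
  | p + 1, x, v, h, hv, j, hj => by
    rw [pk_succ] at h
    have hbW : (2 : ℤ) ^ b ≤ 2 ^ W := pow_le_pow_right₀ (by norm_num) hb
    have h0 := hv 0 (by omega)
    cases j with
    | zero =>
      obtain ⟨c, hc⟩ : (2 : ℤ) ^ b ∣ 2 ^ W := pow_dvd_pow 2 hb
      simp only [bits, mul_zero, pow_zero, Nat.div_one]
      push_cast
      rw [h, hc, mul_assoc, Int.add_mul_emod_self_left, Int.emod_eq_of_lt h0.1 h0.2]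
    | succ j =>
      have h1 : ((x / 2 ^ W : ℕ) : ℤ) = pk W p fun j => v (j + 1) := by
        push_cast
        rw [h, Int.add_mul_ediv_left _ _ (by positivity),
          Int.ediv_eq_zero_of_lt h0.1 (h0.2.trans_le hbW), zero_add]
      have := bits_pk hb h1 (fun j hj => hv (j + 1) (by omega)) j (by omega)
      rwa [bits_div, show W + W * j = W * (j + 1) by ring] at this

/-- Dropping the first `d` entries and the last `s` bits of every entry. -/
theorem round_pk {W s p x : ℕ} (hs : s < W) {v : ℕ → ℤ} (h : (x : ℤ) = pk W p v)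
    (hv : ∀ j < p, 0 ≤ v j ∧ v j < 2 ^ W) (d q : ℕ) (hq : d + q ≤ p) :
    (Nat.land (Nat.shiftRight x (W * d + s)) (msk W (W - s) q) : ℤ) =
      pk W q fun j => v (d + j) / 2 ^ s := by
  rw [land_shr_msk (by omega) (by omega)]
  refine pk_congr fun j hj => ?_
  rw [← bits_pk le_rfl h hv (d + j) (by omega)]
  have : bits x (W * d + s + W * j) (W - s) = bits x (W * (d + j)) W / 2 ^ s := by
    refine Nat.eq_of_testBit_eq fun i => ?_
    simp only [bits, Nat.testBit_mod_two_pow, Nat.testBit_div_two_pow]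
    rw [show i + (W * d + s + W * j) = i + s + W * (d + j) by ring]
    congr 1
    exact decide_eq_decide.2 (by omega)
  rw [this]
  push_cast
  rfl

theorem small_sound {W e p pos neg : ℕ} (hW : 0 < W) (he : e ≤ W) {v : ℕ → ℤ}
    (h : small pos neg (msk W e p) = true) (hv : (pos : ℤ) - neg = pk W p v)
    (hb : ∀ j < p, |v j| + 2 ^ e ≤ 2 ^ W) : ∀ j < p, 0 ≤ v j ∧ v j < 2 ^ e := by
  rw [small, bnd_iff] at h
  have h1 : neg ≤ pos := Nat.le_of_ble_eq_true h.1
  have h2 : Nat.land (pos - neg) (msk W e p) = pos - neg := Nat.eq_of_beq_eq_true h.2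
  have h3 := land_msk hW he p (pos - neg)
  rw [h2, Nat.cast_sub h1, hv] at h3
  have lt : ∀ j, (bits (pos - neg) (W * j) e : ℤ) < 2 ^ e := fun j => by
    exact_mod_cast bits_lt _ _ _
  intro j hj
  rw [pk_inj h3 (fun j hj => ?_) j hj]
  · exact ⟨Nat.cast_nonneg _, lt j⟩
  · have := hb j hj
    have := lt j
    have : (0 : ℤ) ≤ bits (pos - neg) (W * j) e := Nat.cast_nonneg _
    have := le_abs_self (v j)
    have := neg_abs_le (v j)
    have : (0 : ℤ) < 2 ^ e := by positivity
    rw [abs_lt]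
    constructor <;> linarith

/-- The rows as a list. -/
def Rows.toList : Rows → List ℕ
  | .nil => []
  | .cons r0 r1 r2 r3 r4 r5 r6 r7 r8 r9 r10 r11 r12 r13 r14 r15 t =>
    [r0, r1, r2, r3, r4, r5, r6, r7, r8, r9, r10, r11, r12, r13, r14, r15] ++ t.toList

theorem lget_eq : ∀ (l : List ℕ) (k : ℕ), lget l k = l.getD k 0
  | [], _ => rfl
  | _ :: _, 0 => rfl
  | _ :: l, k + 1 => lget_eq l k

theorem get_nil (k : ℕ) : Rows.nil.get k = 0 := rfl

theorem get_cons (r0 r1 r2 r3 r4 r5 r6 r7 r8 r9 r10 r11 r12 r13 r14 r15 : ℕ) (t : Rows) (k : ℕ) :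
    (Rows.cons r0 r1 r2 r3 r4 r5 r6 r7 r8 r9 r10 r11 r12 r13 r14 r15 t).get k =
      if 16 ≤ k then t.get (k - 16) else
        [r0, r1, r2, r3, r4, r5, r6, r7, r8, r9, r10, r11, r12, r13, r14, r15].getD k 0 := by
  change cnd (Nat.ble 16 k) (t.get (k - 16)) (lget _ k) = _
  rw [cnd_eq, lget_eq]
  simp only [Nat.ble_eq]

theorem get_eq (R : Rows) : ∀ k, R.get k = R.toList.getD k 0 := by
  induction R with
  | nil => intro k; rfl
  | cons r0 r1 r2 r3 r4 r5 r6 r7 r8 r9 r10 r11 r12 r13 r14 r15 t ih =>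
    intro k
    rw [get_cons, Rows.toList]
    split_ifs with h
    · rw [ih, List.getD_append_right _ _ _ _ (by simpa using h)]
      rfl
    · rw [List.getD_append _ _ _ _ (by simpa using h)]

theorem len_eq (R : Rows) : R.len = R.toList.length := by
  induction R with
  | nil => rfl
  | cons r0 r1 r2 r3 r4 r5 r6 r7 r8 r9 r10 r11 r12 r13 r14 r15 t ih =>
    change t.len + 16 = _
    rw [Rows.toList, List.length_append, ih, add_comm]
    rfl

theorem get_of_le {R : Rows} {k : ℕ} (h : R.len ≤ k) : R.get k = 0 := by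
  rw [get_eq, List.getD_eq_default _ _ (by rwa [← len_eq])]

theorem toList_map (f : ℕ → ℕ) (R : Rows) : (R.map f).toList = R.toList.map f := by
  induction R with
  | nil => rfl
  | cons r0 r1 r2 r3 r4 r5 r6 r7 r8 r9 r10 r11 r12 r13 r14 r15 t ih =>
    change _ ++ (t.map f).toList = _
    rw [ih]
    rfl

theorem len_map (f : ℕ → ℕ) (R : Rows) : (R.map f).len = R.len := by
  rw [len_eq, len_eq, toList_map, List.length_map]

theorem get_map (f : ℕ → ℕ) (R : Rows) {k : ℕ} (h : k < R.len) :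
    (R.map f).get k = f (R.get k) := by
  rw [len_eq] at h
  rw [get_eq, get_eq, toList_map, List.getD_eq_getElem _ _ (by simpa using h),
    List.getD_eq_getElem _ _ h, List.getElem_map]

theorem force_eq (R : Rows) : R.force = R := by
  induction R with
  | nil => rfl
  | cons r0 r1 r2 r3 r4 r5 r6 r7 r8 r9 r10 r11 r12 r13 r14 r15 t ih =>
    change Rows.cons _ _ _ _ _ _ _ _ _ _ _ _ _ _ _ _ t.force = _
    rw [ih]

theorem toList_app (R S : Rows) : (R.app S).toList = R.toList ++ S.toList := by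
  induction R with
  | nil => rfl
  | cons r0 r1 r2 r3 r4 r5 r6 r7 r8 r9 r10 r11 r12 r13 r14 r15 t ih =>
    change _ ++ (t.app S).toList = _
    rw [ih]
    rfl

theorem len_app (R S : Rows) : (R.app S).len = R.len + S.len := by
  rw [len_eq, len_eq, len_eq, toList_app, List.length_append]

theorem get_app (R S : Rows) (k : ℕ) :
    (R.app S).get k = if k < R.len then R.get k else S.get (k - R.len) := by
  rw [get_eq, get_eq, get_eq, toList_app, len_eq]
  split_ifs with h
  · rw [List.getD_append _ _ _ _ h]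
  · rw [List.getD_append_right _ _ _ _ (not_lt.1 h)]

theorem list_sum_eq : ∀ l : List ℕ, l.sum = ∑ k ∈ range l.length, l.getD k 0
  | [] => by simp
  | x :: l => by
    rw [List.sum_cons, List.length_cons, sum_range_succ', list_sum_eq l, add_comm]
    rfl

theorem sum_eq (R : Rows) : R.sum = ∑ k ∈ range R.len, R.get k := by
  have : R.sum = R.toList.sum := by
    induction R with
    | nil => rfl
    | cons r0 r1 r2 r3 r4 r5 r6 r7 r8 r9 r10 r11 r12 r13 r14 r15 t ih =>
      change _ + t.sum = _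
      rw [ih, Rows.toList, List.sum_append]
      simp only [List.sum_cons, List.sum_nil, Nat.add_eq]
      ring
  rw [this, list_sum_eq, len_eq]
  exact sum_congr rfl fun k _ => (get_eq R k).symm

theorem sum_cell (f : ℕ → ℕ) (n : ℕ) : ∑ k ∈ range (n + 16), f k =
    f 0 + f 1 + f 2 + f 3 + f 4 + f 5 + f 6 + f 7 + f 8 + f 9 + f 10 + f 11 + f 12 + f 13 + f 14 +
      f 15 + ∑ k ∈ range n, f (16 + k) := by
  rw [add_comm n, sum_range_add]
  simp only [sum_range_succ, range_zero, sum_empty, zero_add]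

theorem get_cons_add (r0 r1 r2 r3 r4 r5 r6 r7 r8 r9 r10 r11 r12 r13 r14 r15 : ℕ) (t : Rows)
    (k : ℕ) : (Rows.cons r0 r1 r2 r3 r4 r5 r6 r7 r8 r9 r10 r11 r12 r13 r14 r15 t).get (16 + k) =
      t.get k := by
  rw [get_cons, if_pos (by omega), Nat.add_sub_cancel_left]

theorem dotA_eq (W : ℕ) (R : Rows) : ∀ x, dotA W (low W) (W * 16) (low (W * 16)) R x =
    ∑ k ∈ range R.len, bits x (W * k) W * R.get k := by
  induction R with
  | nil => intro x; rfl
  | cons r0 r1 r2 r3 r4 r5 r6 r7 r8 r9 r10 r11 r12 r13 r14 r15 t ih =>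
    intro x
    change cell W (low W) (Nat.land x (low (W * 16))) r0 r1 r2 r3 r4 r5 r6 r7 r8 r9 r10 r11 r12 r13
      r14 r15 + dotA W (low W) (W * 16) (low (W * 16)) t (Nat.shiftRight x (W * 16)) =
        ∑ k ∈ range (t.len + 16), _
    rw [ih, sum_cell]
    congr 1
    · have e : ∀ k < 16, bits x (W * k) W = bits (x % 2 ^ (W * 16)) (W * k) W := fun k hk =>
        (bits_mod (by nlinarith)).symm
      rw [e 0, e 1, e 2, e 3, e 4, e 5, e 6, e 7, e 8, e 9, e 10, e 11, e 12, e 13, e 14, e 15,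
        land_low] <;> try norm_num
      generalize x % 2 ^ (W * 16) = y
      simp only [cell, land_low, shr_eq, Nat.add_eq, Nat.mul_eq, Nat.div_div_eq_div_mul, ← pow_add,
        bits, get_cons]
      norm_num
      ring_nf
    · refine sum_congr rfl fun k _ => ?_
      rw [get_cons_add, shr_eq, bits_div, mul_add]

/-- Meaning of `dot`. -/
theorem dot_eq (W : ℕ) (R : Rows) (x : ℕ) :
    dot W R x = ∑ k ∈ range R.len, bits x (W * k) W * R.get k := dotA_eq W R x

theorem dotB_eq (s b : ℕ) (A : Rows) : ∀ C : Rows, dotB s (low b) A C =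
    ∑ k ∈ range A.len, bits (A.get k) s b * C.get k := by
  induction A with
  | nil => intro C; rfl
  | cons a0 a1 a2 a3 a4 a5 a6 a7 a8 a9 a10 a11 a12 a13 a14 a15 u ih =>
    intro C
    cases C with
    | nil =>
      simp only [get_nil, mul_zero, sum_const_zero]
      rfl
    | cons r0 r1 r2 r3 r4 r5 r6 r7 r8 r9 r10 r11 r12 r13 r14 r15 t =>
      change _ + dotB s (low b) u t = ∑ k ∈ range (u.len + 16), _
      rw [ih, sum_cell]
      congr 1
      · simp only [land_shr, Nat.add_eq, Nat.mul_eq, get_cons]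
        norm_num
        ring
      · exact sum_congr rfl fun k _ => by rw [get_cons_add, get_cons_add]

/-- Meaning of `dotT`. -/
theorem dotT_eq (s b : ℕ) (A C : Rows) :
    dotT s b A C = ∑ k ∈ range A.len, bits (A.get k) s b * C.get k := dotB_eq s b A C

end Pool.Agent.Lib.KLA
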