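import Pool.Agent.Lib.KLA.Sound

/-!
Stored matrices, and the certificate for positive semidefiniteness: `M - Rᵀ R` has small entries.
-/

namespace Pool.Agent.Lib.KLA

open Finset

theorem len_cons (r0 r1 r2 r3 r4 r5 r6 r7 r8 r9 r10 r11 r12 r13 r14 r15 : ℕ) (t : Rows) :
    (Rows.cons r0 r1 r2 r3 r4 r5 r6 r7 r8 r9 r10 r11 r12 r13 r14 r15 t).len = t.len + 16 := rfl

section rep

variable (b M z0 z1 z2 z3 z4 z5 z6 z7 z8 z9 z10 z11 z12 z13 z14 z15 : ℕ) (t : Rows)

theorem rep_len : ∀ g s,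
    (rep b M z0 z1 z2 z3 z4 z5 z6 z7 z8 z9 z10 z11 z12 z13 z14 z15 t g s).len = t.len + 16 * g
  | 0, _ => rfl
  | g + 1, s => by
    change (rep b M z0 z1 z2 z3 z4 z5 z6 z7 z8 z9 z10 z11 z12 z13 z14 z15 t g (s + b)).len + 16 = _
    rw [rep_len g]
    ring

theorem rep_get_add : ∀ g s k,
    (rep b M z0 z1 z2 z3 z4 z5 z6 z7 z8 z9 z10 z11 z12 z13 z14 z15 t g s).get (16 * g + k) = t.get k
  | 0, _, k => by
    rw [mul_zero, zero_add]
    rfl
  | g + 1, s, k => by
    change (Rows.cons _ _ _ _ _ _ _ _ _ _ _ _ _ _ _ _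
      (rep b M z0 z1 z2 z3 z4 z5 z6 z7 z8 z9 z10 z11 z12 z13 z14 z15 t g (s + b))).get _ = _
    rw [show 16 * (g + 1) + k = 16 + (16 * g + k) by ring, get_cons_add, rep_get_add g]

theorem rep_get (u : Rows) : ∀ g s h r, h < g → r < 16 →
    (rep b M z0 z1 z2 z3 z4 z5 z6 z7 z8 z9 z10 z11 z12 z13 z14 z15 t g s).get (16 * h + r) =
      Nat.land (Nat.shiftRight
        ((Rows.cons z0 z1 z2 z3 z4 z5 z6 z7 z8 z9 z10 z11 z12 z13 z14 z15 u).get r) (s + b * h)) M
  | 0, _, _, _, hh, _ => by omega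
  | g + 1, s, 0, r, _, hr => by
    interval_cases r <;> rfl
  | g + 1, s, h + 1, r, hh, hr => by
    change (Rows.cons _ _ _ _ _ _ _ _ _ _ _ _ _ _ _ _
      (rep b M z0 z1 z2 z3 z4 z5 z6 z7 z8 z9 z10 z11 z12 z13 z14 z15 t g (s + b))).get _ = _
    rw [show 16 * (h + 1) + r = 16 + (16 * h + r) by ring, get_cons_add,
      rep_get u g _ h r (by omega) hr, show s + b + b * h = s + b * (h + 1) by ring]

end rep

theorem land_shr_zero (s M : ℕ) : Nat.land (Nat.shiftRight 0 s) M = 0 := by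
  change 0 >>> s &&& M = 0
  simp

theorem unp_len (g b s M : ℕ) (Z : Rows) : (unp g b s M Z).len = g * Z.len := by
  induction Z with
  | nil => rfl
  | cons z0 z1 z2 z3 z4 z5 z6 z7 z8 z9 z10 z11 z12 z13 z14 z15 t ih =>
    change (rep b M _ _ _ _ _ _ _ _ _ _ _ _ _ _ _ _ (unp g b s M t) g s).len = _
    rw [rep_len, ih, len_cons]
    ring

theorem unp_get' (g b s M : ℕ) (Z : Rows) : ∀ c h r, h < g → r < 16 →
    (unp g b s M Z).get (16 * g * c + (16 * h + r)) =
      Nat.land (Nat.shiftRight (Z.get (16 * c + r)) (s + b * h)) M := by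
  induction Z with
  | nil => intro c h r _ _; exact (land_shr_zero _ _).symm
  | cons z0 z1 z2 z3 z4 z5 z6 z7 z8 z9 z10 z11 z12 z13 z14 z15 t ih =>
    intro c h r hh hr
    change (rep b M _ _ _ _ _ _ _ _ _ _ _ _ _ _ _ _ (unp g b s M t) g s).get _ = _
    cases c with
    | zero => simpa only [mul_zero, zero_add] using rep_get _ _ _ _ _ _ _ _ _ _ _ _ _ _ _ _ _ _ _ t g s h r hh hr
    | succ c =>
      rw [show 16 * g * (c + 1) + (16 * h + r) = 16 * g + (16 * g * c + (16 * h + r)) by ring,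
        rep_get_add, ih c h r hh hr, show 16 * (c + 1) + r = 16 + (16 * c + r) by ring,
        get_cons_add]

theorem tri_len (g b D M : ℕ) (Z : Rows) : ∀ n,
    (tri g b D M Z n).len = min (g * Z.len) (16 * g * n) := by
  induction Z with
  | nil => intro n; exact (Nat.zero_min _).symm
  | cons z0 z1 z2 z3 z4 z5 z6 z7 z8 z9 z10 z11 z12 z13 z14 z15 t ih =>
    intro n
    cases n with
    | zero => exact (Nat.min_zero _).symm
    | succ n =>
      change (rep b M _ _ _ _ _ _ _ _ _ _ _ _ _ _ _ _ (tri g b D M t n) g (D * n)).len = _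
      rw [rep_len, ih, len_cons, mul_add, mul_add, mul_one, mul_comm g 16, Nat.add_min_add_right]

theorem tri_get' (g b D M : ℕ) (Z : Rows) : ∀ n c h r, c < n → h < g → r < 16 →
    (tri g b D M Z n).get (16 * g * c + (16 * h + r)) =
      Nat.land (Nat.shiftRight (Z.get (16 * c + r)) (D * (n - 1 - c) + b * h)) M := by
  induction Z with
  | nil => intro n c h r _ _ _; exact (land_shr_zero _ _).symm
  | cons z0 z1 z2 z3 z4 z5 z6 z7 z8 z9 z10 z11 z12 z13 z14 z15 t ih =>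
    intro n c h r hc hh hr
    obtain ⟨n, rfl⟩ : ∃ m, n = m + 1 := ⟨n - 1, by omega⟩
    change (rep b M _ _ _ _ _ _ _ _ _ _ _ _ _ _ _ _ (tri g b D M t n) g (D * n)).get _ = _
    cases c with
    | zero => simpa only [mul_zero, zero_add, Nat.add_sub_cancel, Nat.sub_zero] using
        rep_get _ _ _ _ _ _ _ _ _ _ _ _ _ _ _ _ _ _ _ t g (D * n) h r hh hr
    | succ c =>
      rw [show 16 * g * (c + 1) + (16 * h + r) = 16 * g + (16 * g * c + (16 * h + r)) by ring,
        rep_get_add, ih n c h r (by omega) hh hr, show 16 * (c + 1) + r = 16 + (16 * c + r) by ring,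
        get_cons_add, show n + 1 - 1 - (c + 1) = n - 1 - c by omega]

theorem idx_split {g : ℕ} (hg : 0 < g) (k : ℕ) :
    k = 16 * g * (k / (16 * g)) + (16 * (k / 16 % g) + k % 16) := by
  have h1 := Nat.div_add_mod k 16
  have h2 := Nat.div_add_mod (k / 16) g
  rw [← Nat.div_div_eq_div_mul]
  calc k = 16 * (g * (k / 16 / g) + k / 16 % g) + k % 16 := by rw [h2, h1]
    _ = _ := by ring

/-- The stored number that holds row `k`. -/
noncomputable def src (g : ℕ) (Z : Rows) (k : ℕ) : ℕ := Z.get (16 * (k / (16 * g)) + k % 16)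

theorem unp_get {g : ℕ} (hg : 0 < g) (b s M : ℕ) (Z : Rows) (k : ℕ) :
    (unp g b s M Z).get k = Nat.land (Nat.shiftRight (src g Z k) (s + b * (k / 16 % g))) M := by
  conv_lhs => rw [idx_split hg k]
  exact unp_get' g b s M Z _ _ _ (Nat.mod_lt _ hg) (Nat.mod_lt _ (by norm_num))

theorem tri_get {g : ℕ} (hg : 0 < g) (b D M : ℕ) (Z : Rows) {n k : ℕ} (hk : k < 16 * g * n) :
    (tri g b D M Z n).get k = Nat.land (Nat.shiftRight (src g Z k)
      (D * (n - 1 - k / (16 * g)) + b * (k / 16 % g))) M := by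
  conv_lhs => rw [idx_split hg k]
  exact tri_get' g b D M Z _ _ _ _ (Nat.div_lt_of_lt_mul hk) (Nat.mod_lt _ hg)
    (Nat.mod_lt _ (by norm_num))

/-- Removing the offsets from a sum of products. -/
theorem offset_dot {W p n : ℕ} (hW : 0 < W) (Kx K : ℤ) (a : ℕ → ℤ) (c : ℕ → ℕ → ℤ) :
    ∑ k ∈ range n, (a k + Kx) * pk W p (fun j => c k j + K) + n * (Kx * K) * (ones W p : ℕ) -
      Kx * ∑ k ∈ range n, pk W p (fun j => c k j + K) -
      K * (∑ k ∈ range n, (a k + Kx)) * (ones W p : ℕ) =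
    pk W p fun j => ∑ k ∈ range n, a k * c k j := by
  simp only [ones_eq hW, pk_mul, pk_sum, pk_add, pk_sub]
  refine pk_congr fun j _ => ?_
  simp only [mul_one, mul_sum]
  rw [show (n : ℤ) * (Kx * K) = ∑ _k ∈ range n, Kx * K by simp, ← sum_add_distrib,
    ← sum_sub_distrib, ← sum_sub_distrib]
  exact sum_congr rfl fun k _ => by ring

theorem abs_sum_mul_le {n : ℕ} {a c : ℕ → ℤ} {A C : ℤ} (ha : ∀ k < n, |a k| ≤ A)
    (hc : ∀ k < n, |c k| ≤ C) : |∑ k ∈ range n, a k * c k| ≤ n * (A * C) := by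
  refine (abs_sum_le_sum_abs _ _).trans ?_
  have := sum_le_card_nsmul (range n) (fun k => |a k * c k|) (A * C) fun k hk => by
    rw [abs_mul]
    exact mul_le_mul (ha k (mem_range.1 hk)) (hc k (mem_range.1 hk)) (abs_nonneg _)
      ((abs_nonneg _).trans (ha k (mem_range.1 hk)))
  simpa using this

theorem psdRows_sound {W b e KM p G i0 : ℕ} {R : Rows} {m : ℕ → (ℕ → Bool) → Bool} {a q : ℕ}
    (h : psdRows W b e KM p G i0 R m a q = true) (hb : 0 < b) (hbW : b ≤ W) (he : e + 1 ≤ W)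
    {F : ℕ → ℕ → ℤ} (hR : ∀ k < R.len, (R.get k : ℤ) = pk W p fun j => F k j + 2 ^ (b - 1))
    (hF : ∀ k < R.len, ∀ j < p, -2 ^ (b - 1) ≤ F k j ∧ F k j < 2 ^ (b - 1))
    (h1 : (R.len : ℤ) * 2 ^ b < 2 ^ W)
    (h2 : (KM : ℤ) + R.len * (2 ^ (b - 1) * 2 ^ (b - 1)) + 2 ^ (e + 2) ≤ 2 ^ W)
    {i : ℕ} (hai : a ≤ i) (hiq : i < a + q) :
    i0 ≤ i ∧ i < i0 + G ∧ ∃ f, m i f = true ∧ ∀ (y : ℕ) (M : ℕ → ℤ), f y = true → i - i0 < p →
      (y : ℤ) = pk W p (fun j => M j + KM) → (∀ j < p, |M j| ≤ KM) →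
      ∀ j < p, |M j - ∑ k ∈ range R.len, F k (i - i0) * F k j| ≤ 2 ^ e := by
  have hW : 0 < W := by omega
  have h' := allR_spec h i hai hiq
  simp only [strict_eq, force_eq, bnd_iff, Nat.ble_eq, Nat.add_eq, Nat.mul_eq, Nat.sub_eq, shl_eq,
    land_shr, one_mul] at h'
  obtain ⟨⟨g1, g2⟩, g3⟩ := h'
  refine ⟨g1, by omega, _, g3, fun y M g3 hd hm hM j hj => ?_⟩
  have b2 : (2 : ℤ) ^ b = 2 ^ (b - 1) + 2 ^ (b - 1) := by
    rw [← two_mul, ← pow_succ', Nat.sub_add_cancel hb]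
  have hD : ∀ k < R.len, ∀ j < p, 0 ≤ F k j + 2 ^ (b - 1) ∧ F k j + 2 ^ (b - 1) < 2 ^ b :=
    fun k hk j hj => by have := hF k hk j hj; constructor <;> linarith
  have hA : ∀ k < R.len, |F k (i - i0)| ≤ 2 ^ (b - 1) := fun k hk => by
    have := hF k hk _ hd; rw [abs_le]; constructor <;> linarith
  have hS : (R.sum : ℤ) = ∑ k ∈ range R.len, pk W p fun j => F k j + 2 ^ (b - 1) := by
    rw [sum_eq]
    push_cast
    exact sum_congr rfl fun k hk => hR k (mem_range.1 hk)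
  have hσ : (bits R.sum (W * (i - i0)) W : ℤ) = ∑ k ∈ range R.len, (F k (i - i0) + 2 ^ (b - 1)) := by
    refine bits_pk le_rfl (hS.trans (pk_sum _ _ _ _)) (fun j hj => ⟨sum_nonneg fun k hk =>
      (hD k (mem_range.1 hk) j hj).1, ?_⟩) _ hd
    have := sum_le_card_nsmul (range R.len) (fun k => F k j + 2 ^ (b - 1)) (2 ^ b) fun k hk =>
      (hD k (mem_range.1 hk) j hj).2.le
    simp only [card_range, nsmul_eq_mul] at this
    linarith
  have hy : (dotT (W * (i - i0)) b (R.map fun r => Nat.land r (low (W * G))) R : ℤ) =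
      ∑ k ∈ range R.len, (F k (i - i0) + 2 ^ (b - 1)) * pk W p fun j => F k j + 2 ^ (b - 1) := by
    rw [dotT_eq, len_map]
    push_cast
    refine sum_congr rfl fun k hk => ?_
    have hk := mem_range.1 hk
    rw [get_map _ _ hk, land_low, bits_mod, bits_pk hbW (hR k hk) (hD k hk) _ hd, hR k hk]
    calc W * (i - i0) + b ≤ W * (i - i0 + 1) := by rw [mul_add, mul_one]; omega
      _ ≤ W * G := Nat.mul_le_mul_left _ (by omega)
  have key := offset_dot (p := p) (n := R.len) hW (2 ^ (b - 1)) (2 ^ (b - 1))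
    (fun k => F k (i - i0)) F
  have := small_sound (W := W) (e := e + 1) (p := p) hW he
    (v := fun j => M j - ∑ k ∈ range R.len, F k (i - i0) * F k j + 2 ^ e) g3 ?_ ?_ j hj
  · rw [pow_succ] at this
    rw [abs_le]
    constructor <;> linarith [this.1, this.2]
  · push_cast
    rw [hm, hσ, hy, hS, ← pk_add, ← pk_add, ← pk_sub, ← key,
      show pk W p (fun _ => (KM : ℤ)) = KM * (ones W p : ℕ) by simp [ones_eq hW, pk_mul],
      show pk W p (fun _ => (2 : ℤ) ^ e) = 2 ^ e * (ones W p : ℕ) by simp [ones_eq hW, pk_mul]]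
    ring
  · intro j hj
    have t1 := abs_sum_mul_le (c := fun k => F k j) hA (C := 2 ^ (b - 1)) fun k hk => by
      have := hF k hk _ hj; rw [abs_le]; constructor <;> linarith
    have t2 := hM j hj
    have t3 : (2 : ℤ) ^ (e + 2) = 2 ^ e * 4 := by ring
    have t4 : (2 : ℤ) ^ (e + 1) = 2 ^ e * 2 := by ring
    have t5 : (0 : ℤ) < 2 ^ e := by positivity
    have t6 := abs_add_le (M j - ∑ k ∈ range R.len, F k (i - i0) * F k j) (2 ^ e)
    have t7 := abs_sub (M j) (∑ k ∈ range R.len, F k (i - i0) * F k j)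
    rw [abs_of_pos t5] at t6
    linarith

/-- A symmetric matrix close to a Gram matrix is almost positive semidefinite. -/
theorem psd_of_close {N n : ℕ} {M F : ℕ → ℕ → ℝ} {ε : ℝ} (hs : ∀ i < N, ∀ j < N, M i j = M j i)
    (h : ∀ i j, i ≤ j → j < N → |M i j - ∑ k ∈ range n, F k i * F k j| ≤ ε) (x : ℕ → ℝ) :
    -(N * ε) * ∑ i ∈ range N, x i ^ 2 ≤ ∑ i ∈ range N, ∑ j ∈ range N, M i j * (x i * x j) := by
  have h' : ∀ i < N, ∀ j < N, |M i j - ∑ k ∈ range n, F k i * F k j| ≤ ε := fun i hi j hj => by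
    rcases le_total i j with hij | hij
    · exact h i j hij hj
    · rw [hs i hi j hj, sum_congr rfl fun k _ => mul_comm (F k i) (F k j)]
      exact h j i hij hi
  have e1 : ∑ i ∈ range N, ∑ j ∈ range N, (∑ k ∈ range n, F k i * F k j) * (x i * x j) =
      ∑ k ∈ range n, (∑ i ∈ range N, F k i * x i) ^ 2 := by
    simp only [sq, sum_mul_sum]
    simp only [sum_mul]
    rw [sum_congr rfl fun i _ => sum_comm, sum_comm]
    exact sum_congr rfl fun k _ => sum_congr rfl fun i _ => sum_congr rfl fun j _ => by ring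
  have e2 : -(N * ε) * ∑ i ∈ range N, x i ^ 2 =
      ∑ i ∈ range N, ∑ j ∈ range N, -(ε / 2) * (x i ^ 2 + x j ^ 2) := by
    simp only [mul_add, sum_add_distrib, sum_const, card_range, nsmul_eq_mul, ← mul_sum]
    ring
  have e3 : 0 ≤ ∑ k ∈ range n, (∑ i ∈ range N, F k i * x i) ^ 2 :=
    sum_nonneg fun k _ => sq_nonneg _
  rw [← e1] at e3
  rw [e2]
  refine (le_add_of_nonneg_right e3).trans ?_
  rw [← sum_add_distrib]
  refine sum_le_sum fun i hi => ?_
  rw [← sum_add_distrib]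
  refine sum_le_sum fun j hj => ?_
  have h1 := h' i (mem_range.1 hi) j (mem_range.1 hj)
  have h2 : |x i * x j| ≤ (x i ^ 2 + x j ^ 2) / 2 := by
    rw [abs_le]
    constructor <;> nlinarith [sq_nonneg (x i + x j), sq_nonneg (x i - x j)]
  have h3 := neg_abs_le ((M i j - ∑ k ∈ range n, F k i * F k j) * (x i * x j))
  rw [abs_mul] at h3
  have h4 := mul_le_mul h1 h2 (abs_nonneg _) ((abs_nonneg _).trans h1)
  linarith

/-- The certificate. `m c i` passes on, with offset `KM`, an integer vector that is within `η` of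
the row `i` of the symmetric matrix `M`, cut at the column `16 g c` where the block of `i` starts
(only the columns `j ≥ i` matter). Then `M` is bounded below by `-N (2 ^ e + η)`. -/
theorem psd_tri {W b e KM N g : ℕ} {Z : Rows} {m : ℕ → ℕ → (ℕ → Bool) → Bool} {M : ℕ → ℕ → ℝ}
    {η : ℝ} (h : Cov (psdTri W b e KM N g Z m) N) (hg : 0 < g) (hb : 0 < b) (hbW : b ≤ W)
    (he : e + 1 ≤ W) (h1 : (N + 16 * g) * 2 ^ b < 2 ^ W)
    (h2 : KM + (N + 16 * g) * (2 ^ (b - 1) * 2 ^ (b - 1)) + 2 ^ (e + 2) ≤ 2 ^ W)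
    (hs : ∀ i < N, ∀ j < N, M i j = M j i)
    (hm : ∀ c i f, 16 * g * c ≤ i → i < 16 * g * c + 16 * g → i < N → m c i f = true →
      ∃ (y : ℕ) (r : ℕ → ℤ), f y = true ∧ (y : ℤ) = pk W (N - 16 * g * c) (fun j => r j + KM) ∧
        (∀ j < N - 16 * g * c, |r j| ≤ KM) ∧
        ∀ j < N, i ≤ j → |M i j - r (j - 16 * g * c)| ≤ η) (x : ℕ → ℝ) :
    -(N * (2 ^ e + η)) * ∑ i ∈ range N, x i ^ 2 ≤
      ∑ i ∈ range N, ∑ j ∈ range N, M i j * (x i * x j) := by
  have hW : 0 < W := by omega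
  have hG : 0 < 16 * g := by omega
  let F : ℕ → ℕ → ℤ := fun k j => if k < g * Z.len ∧ 16 * g * (k / (16 * g)) ≤ j then
    (bits (src g Z k) (W * (j - 16 * g * (k / (16 * g))) + b * (k / 16 % g)) b : ℤ) - 2 ^ (b - 1)
    else 0
  refine psd_of_close (n := g * Z.len) (F := fun k j => (F k j : ℝ)) hs (fun i j hij hj => ?_) x
  have hi : i < N := by omega
  obtain ⟨c, a, q, ha, hq, hc⟩ := h i hi
  have hc' : psdRows W b e KM (N - 16 * g * c) (16 * g) (16 * g * c)
      (tri g b (W * (16 * g)) (msk W b (N - 16 * g * c)) Z (c + 1)) (m c) a q = true := hc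
  set R := tri g b (W * (16 * g)) (msk W b (N - 16 * g * c)) Z (c + 1) with hRd
  have hl : R.len = min (g * Z.len) (16 * g * (c + 1)) := tri_len _ _ _ _ _ _
  have hi0 : 16 * g * c ≤ i := by
    have := allR_spec hc' i ha hq
    simp only [strict_eq, bnd_iff, Nat.ble_eq] at this
    exact this.1.1
  have hlen : R.len ≤ N + 16 * g := by
    rw [hl]
    refine (min_le_right _ _).trans ?_
    rw [mul_add, mul_one]
    omega
  have hkc : ∀ k < R.len, k / (16 * g) ≤ c := fun k hk =>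
    Nat.lt_succ_iff.1 (Nat.div_lt_of_lt_mul (hk.trans_le (hl ▸ min_le_right _ _)))
  have hFk : ∀ k < R.len, ∀ j, F k (16 * g * c + j) = (bits (src g Z k)
      (W * (16 * g) * (c + 1 - 1 - k / (16 * g)) + b * (k / 16 % g) + W * j) b : ℤ) - 2 ^ (b - 1) := by
    intro k hk j
    obtain ⟨d, hd⟩ := Nat.exists_eq_add_of_le (hkc k hk)
    have : 16 * g * c = 16 * g * (k / (16 * g)) + 16 * g * d := by rw [← mul_add, ← hd]
    simp only [F]
    rw [if_pos ⟨hk.trans_le (hl ▸ min_le_left _ _), by omega⟩,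
      show 16 * g * c + j - 16 * g * (k / (16 * g)) = 16 * g * d + j by omega,
      show c + 1 - 1 - k / (16 * g) = d by omega]
    congr 3
    ring
  have b2 : (2 : ℤ) ^ b = 2 ^ (b - 1) + 2 ^ (b - 1) := by
    rw [← two_mul, ← pow_succ', Nat.sub_add_cancel hb]
  obtain ⟨-, g2, f, hf, g3⟩ := psdRows_sound hc' hb hbW he (F := fun k j => F k (16 * g * c + j))
    (fun k hk => by
      rw [hRd, tri_get hg _ _ _ _ (hk.trans_le (hl ▸ min_le_right _ _)), land_shr_msk hW hbW]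
      exact pk_congr fun j _ => by rw [hFk k hk, sub_add_cancel])
    (fun k hk j _ => by
      rw [hFk k hk]
      have t1 : ((bits (src g Z k) (W * (16 * g) * (c + 1 - 1 - k / (16 * g)) +
        b * (k / 16 % g) + W * j) b : ℕ) : ℤ) < 2 ^ b := by exact_mod_cast bits_lt _ _ _
      have t2 := Int.natCast_nonneg (bits (src g Z k) (W * (16 * g) * (c + 1 - 1 - k / (16 * g)) +
        b * (k / 16 % g) + W * j) b)
      constructor <;> linarith)
    (by exact_mod_cast lt_of_le_of_lt (Nat.mul_le_mul_right _ hlen) h1)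
    (by exact_mod_cast le_trans (by gcongr) h2) ha hq
  obtain ⟨y, r, r1, r2, r3, r4⟩ := hm c i f hi0 g2 hi hf
  have g4 := g3 y r r1 (by omega) r2 r3 (j - 16 * g * c) (by omega)
  simp only [Nat.add_sub_cancel' hi0, Nat.add_sub_cancel' (hi0.trans hij)] at g4
  have g5 : ∑ k ∈ range (g * Z.len), F k i * F k j = ∑ k ∈ range R.len, F k i * F k j := by
    symm
    refine sum_subset (range_mono (hl ▸ min_le_left _ _)) fun k hk hk' => ?_
    have hk1 := mem_range.1 hk
    have hk2 : 16 * g * (c + 1) ≤ k := by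
      rw [mem_range, hl, lt_min_iff] at hk'
      omega
    have hk3 : c + 1 ≤ k / (16 * g) := (Nat.le_div_iff_mul_le hG).2 (by rwa [mul_comm])
    have hk4 := Nat.mul_le_mul_left (16 * g) hk3
    rw [mul_add, mul_one] at hk4
    simp only [F]
    rw [if_neg (by omega), zero_mul]
  rw [← g5] at g4
  have g6 : |(r (j - 16 * g * c) : ℝ) - ∑ k ∈ range (g * Z.len), (F k i : ℝ) * F k j| ≤ 2 ^ e := by
    exact_mod_cast g4
  have g7 := abs_sub_le (M i j) (r (j - 16 * g * c)) (∑ k ∈ range (g * Z.len), (F k i : ℝ) * F k j)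
  linarith [r4 j hj hij]

end Pool.Agent.Lib.KLA
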