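import Pool.Agent.Lib.KLA.Psd

/-!
Signed vectors and matrices in offset form, and the meaning of the checked operations.
-/

namespace Pool.Agent.Lib.KLA

open Finset

/-- `x` holds the vector `v` of length `p` with offset `K`, and the entries are at most `K`. -/
def Vec (W p K x : ℕ) (v : ℕ → ℤ) : Prop :=
  (x : ℤ) = pk W p (fun j => v j + K) ∧ ∀ j < p, |v j| ≤ K

/-- `D` holds the `n` rows of length `p` of the matrix `c`. -/
def Mat (W p K n : ℕ) (D : Rows) (c : ℕ → ℕ → ℤ) : Prop :=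
  D.len = n ∧ ∀ k < n, Vec W p K (D.get k) (c k)

variable {W p K n x y : ℕ} {v w : ℕ → ℤ}

theorem pk_const (hW : 0 < W) (p : ℕ) (c : ℤ) : pk W p (fun _ => c) = c * (ones W p : ℕ) := by
  simp [ones_eq hW, pk_mul]

theorem Vec.congr (h : Vec W p K x v) (e : ∀ j < p, v j = w j) : Vec W p K x w :=
  ⟨h.1.trans (pk_congr fun j hj => by rw [e j hj]), fun j hj => e j hj ▸ h.2 j hj⟩

theorem Vec.dig (h : Vec W p K x v) {b : ℕ} (hK : 2 * K < 2 ^ b) {j : ℕ} (hj : j < p) :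
    0 ≤ v j + K ∧ v j + K < 2 ^ b := by
  have h1 := abs_le.1 (h.2 j hj)
  have h2 : 2 * (K : ℤ) < 2 ^ b := by exact_mod_cast hK
  constructor <;> linarith [h1.1, h1.2]

/-- Reading an entry. -/
theorem Vec.ent (h : Vec W p K x v) (hK : 2 * K < 2 ^ W) {j : ℕ} (hj : j < p) :
    (bits x (W * j) W : ℤ) = v j + K :=
  bits_pk le_rfl h.1 (fun _ hj => h.dig hK hj) j hj

theorem vec_store {b : ℕ} (hb : 0 < b) (hbW : b ≤ W) (p z s : ℕ) :
    Vec W p (2 ^ (b - 1)) (Nat.land (Nat.shiftRight z s) (msk W b p))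
      fun j => (bits z (s + W * j) b : ℤ) - 2 ^ (b - 1) := by
  refine ⟨(land_shr_msk (by omega) hbW p z s).trans (pk_congr fun j _ => by push_cast; ring),
    fun j _ => ?_⟩
  have b2 : (2 : ℤ) ^ b = 2 ^ (b - 1) + 2 ^ (b - 1) := by
    rw [← two_mul, ← pow_succ', Nat.sub_add_cancel hb]
  have t1 : ((bits z (s + W * j) b : ℕ) : ℤ) < 2 ^ b := by exact_mod_cast bits_lt _ _ _
  have t2 := Int.natCast_nonneg (bits z (s + W * j) b)
  push_cast
  rw [abs_le]
  constructor <;> linarith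

/-- Entry `(k, j)` of a stored matrix: `g` rows in a number, `b` bits each, slots of `W` bits. -/
noncomputable def ent (W g b : ℕ) (Z : Rows) (k j : ℕ) : ℤ :=
  (bits (src g Z k) (b * (k / 16 % g) + W * j) b : ℤ) - 2 ^ (b - 1)

/-- The columns `d, ..., d + p - 1` of a stored matrix. -/
theorem mat_unp {g b : ℕ} (hg : 0 < g) (hb : 0 < b) (hbW : b ≤ W) (p d : ℕ) (Z : Rows) :
    Mat W p (2 ^ (b - 1)) (g * Z.len) (unp g b (W * d) (msk W b p) Z)
      fun k j => ent W g b Z k (d + j) := by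
  refine ⟨unp_len _ _ _ _ _, fun k _ => ?_⟩
  rw [unp_get hg]
  refine (vec_store hb hbW p _ _).congr fun j _ => ?_
  simp only [ent]
  rw [show W * d + b * (k / 16 % g) + W * j = b * (k / 16 % g) + W * (d + j) by ring]

theorem Mat.force {D : Rows} {c : ℕ → ℕ → ℤ} (h : Mat W p K n D c) : Mat W p K n D.force c := by
  rwa [force_eq]

theorem Mat.congr {D : Rows} {c c' : ℕ → ℕ → ℤ} (h : Mat W p K n D c)
    (e : ∀ k < n, ∀ j < p, c k j = c' k j) : Mat W p K n D c' :=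
  ⟨h.1, fun k hk => (h.2 k hk).congr (e k hk)⟩

theorem Mat.map {D : Rows} {c c' : ℕ → ℕ → ℤ} (h : Mat W p K n D c) {W' p' K' : ℕ} {f : ℕ → ℕ}
    (hf : ∀ k < n, Vec W' p' K' (f (D.get k)) (c' k)) : Mat W' p' K' n (D.map f) c' :=
  ⟨(len_map f D).trans h.1, fun k hk => by rw [get_map f D (h.1 ▸ hk)]; exact hf k hk⟩

theorem Mat.app {D D' : Rows} {c c' : ℕ → ℕ → ℤ} {n' : ℕ} (h : Mat W p K n D c)
    (h' : Mat W p K n' D' c') :
    Mat W p K (n + n') (D.app D') fun k => if k < n then c k else c' (k - n) := by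
  refine ⟨by rw [len_app, h.1, h'.1], fun k hk => ?_⟩
  rw [get_app, h.1]
  beta_reduce
  split_ifs with h1
  · exact h.2 k h1
  · exact h'.2 (k - n) (by omega)

theorem Mat.sum {D : Rows} {c : ℕ → ℕ → ℤ} (h : Mat W p K n D c) :
    (D.sum : ℤ) = ∑ k ∈ range n, pk W p fun j => c k j + K := by
  rw [sum_eq, h.1]
  push_cast
  exact sum_congr rfl fun k hk => (h.2 k (mem_range.1 hk)).1

theorem Vec.add {K' : ℕ} (h : Vec W p K x v) (h' : Vec W p K' y w) :
    Vec W p (K + K') (Nat.add x y) fun j => v j + w j := by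
  refine ⟨?_, fun j hj => ?_⟩
  · rw [Nat.add_eq, Nat.cast_add, h.1, h'.1, pk_add]
    exact pk_congr fun j _ => by push_cast; ring
  · push_cast
    exact (abs_add_le _ _).trans (add_le_add (h.2 j hj) (h'.2 j hj))

theorem Vec.smul (h : Vec W p K x v) (c : ℕ) :
    Vec W p (c * K) (Nat.mul c x) fun j => c * v j := by
  refine ⟨?_, fun j hj => ?_⟩
  · rw [Nat.mul_eq, Nat.cast_mul, h.1, pk_mul]
    exact pk_congr fun j _ => by push_cast; ring
  · push_cast
    rw [abs_mul, Nat.abs_cast]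
    exact mul_le_mul_of_nonneg_left (h.2 j hj) (Nat.cast_nonneg _)

theorem Vec.shl (h : Vec W p K x v) (s : ℕ) :
    Vec W p (2 ^ s * K) (Nat.shiftLeft x s) fun j => 2 ^ s * v j := by
  have := h.smul (2 ^ s)
  rw [shl_eq, mul_comm x]
  exact this.congr fun j _ => by push_cast; rfl

theorem Vec.neg (hW : 0 < W) (h : Vec W p K x v) : Vec W p K (vneg W p K x) fun j => -v j := by
  have e : ((2 * K * ones W p : ℕ) : ℤ) - x = pk W p fun j => -v j + K := by
    rw [h.1, Nat.cast_mul, ← pk_const hW, pk_sub]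
    exact pk_congr fun j _ => by push_cast; ring
  have h0 : 0 ≤ pk W p fun j => -v j + K :=
    pk_nonneg fun j hj => by linarith [(abs_le.1 (h.2 j hj)).2]
  refine ⟨?_, fun j hj => by rw [abs_neg]; exact h.2 j hj⟩
  rw [← e] at h0 ⊢
  exact Nat.cast_sub (by exact_mod_cast sub_nonneg.1 h0)

/-- A larger offset. -/
theorem Vec.more (hW : 0 < W) (h : Vec W p K x v) (K' : ℕ) :
    Vec W p (K + K') (Nat.add x (Nat.mul K' (ones W p))) v := by
  have h' : Vec W p K' (Nat.mul K' (ones W p)) fun _ => 0 :=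
    ⟨by rw [Nat.mul_eq, Nat.cast_mul, ← pk_const hW]; simp, fun _ _ => by simp⟩
  exact (h.add h').congr fun j _ => add_zero _

/-- Cutting and rounding down. -/
theorem Vec.rnd {s d q : ℕ} (h : Vec W p (2 ^ s * K) x v) (hs : s < W)
    (hK : 2 * (2 ^ s * K) < 2 ^ W) (hq : d + q ≤ p) :
    Vec W q K (rnd W s d q x) fun j => v (d + j) / 2 ^ s := by
  have hp : (0 : ℤ) < 2 ^ s := by positivity
  refine ⟨(round_pk hs h.1 (fun j hj => h.dig hK hj) d q hq).trans (pk_congr fun j _ => ?_),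
    fun j hj => ?_⟩
  · push_cast
    rw [Int.add_mul_ediv_left _ _ hp.ne']
  · have := abs_le.1 (h.2 (d + j) (by omega))
    push_cast at this
    rw [abs_le]
    constructor
    · exact Int.le_ediv_of_mul_le hp (by linarith [this.1])
    · exact Int.ediv_le_of_le_mul hp (by linarith [this.2])

/-- Cutting. -/
theorem Vec.cut {d q : ℕ} (h : Vec W p K x v) (hW : 0 < W) (hK : 2 * K < 2 ^ W) (hq : d + q ≤ p) :
    Vec W q K (KLA.rnd W 0 d q x) fun j => v (d + j) := by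
  have h' : Vec W p (2 ^ 0 * K) x v := by simpa using h
  simpa using h'.rnd hW (by simpa using hK) hq

theorem ediv_err (a : ℤ) (s : ℕ) : |((a / 2 ^ s : ℤ) : ℝ) - a / 2 ^ s| ≤ 1 := by
  have hp : (0 : ℤ) < 2 ^ s := by positivity
  have h1 : ((2 ^ s * (a / 2 ^ s) + a % 2 ^ s : ℤ) : ℝ) = a := by rw [Int.mul_ediv_add_emod]
  have h2 : (0 : ℝ) ≤ (a % 2 ^ s : ℤ) := by exact_mod_cast Int.emod_nonneg a hp.ne'
  have h3 : ((a % 2 ^ s : ℤ) : ℝ) < 2 ^ s := by exact_mod_cast Int.emod_lt_of_pos a hp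
  have hr : (0 : ℝ) < 2 ^ s := by positivity
  rw [Int.cast_add, Int.cast_mul, Int.cast_pow, Int.cast_ofNat] at h1
  have : ((a / 2 ^ s : ℤ) : ℝ) - a / 2 ^ s = -(((a % 2 ^ s : ℤ) : ℝ) / 2 ^ s) := by
    rw [← h1]
    field_simp
    ring
  rw [this, abs_neg, abs_of_nonneg (by positivity)]
  exact (div_le_one hr).2 h3.le

theorem chk_sound {e pos neg : ℕ} {f : ℕ → Bool} (h : chk pos neg (msk W (e + 1) p) f = true)
    (he : e + 1 ≤ W) (hv : (pos : ℤ) - neg = pk W p fun j => v j + 2 ^ e)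
    (hb : ∀ j < p, |v j| + 2 ^ (e + 2) ≤ 2 ^ W) :
    ∃ y, f y = true ∧ Vec W p (2 ^ e) y v ∧ ∀ j < p, v j < 2 ^ e := by
  rw [chk, bnd_iff] at h
  have t3 : (2 : ℤ) ^ (e + 2) = 2 ^ e * 4 := by ring
  have t4 : (2 : ℤ) ^ (e + 1) = 2 ^ e * 2 := by ring
  have t5 : (0 : ℤ) < 2 ^ e := by positivity
  have h1 := small_sound (by omega) he h.1 hv fun j hj => by
    have t6 := abs_add_le (v j) (2 ^ e)
    rw [abs_of_pos t5] at t6
    linarith [hb j hj]
  have h2 : neg ≤ pos := by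
    have := h.1
    rw [small, bnd_iff] at this
    exact Nat.le_of_ble_eq_true this.1
  refine ⟨pos - neg, h.2, ⟨?_, fun j hj => ?_⟩, fun j hj => by linarith [(h1 j hj).2]⟩
  · rw [Nat.cast_sub h2, hv]
    push_cast
    rfl
  · push_cast
    rw [abs_le]
    constructor <;> linarith [(h1 j hj).1, (h1 j hj).2]

theorem tight_sound {e : ℕ} {f : ℕ → Bool} (h : tight W p K e x f = true) (hx : Vec W p K x v)
    (he : e + 1 ≤ W) (hb : K + 2 ^ (e + 2) ≤ 2 ^ W) :
    ∃ y, f y = true ∧ Vec W p (2 ^ e) y v ∧ ∀ j < p, v j < 2 ^ e := by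
  have hW : 0 < W := by omega
  refine chk_sound h he ?_ fun j hj => ?_
  · simp only [Nat.add_eq, Nat.mul_eq, shl_eq]
    push_cast
    rw [hx.1, mul_comm _ ((2 : ℤ) ^ e), ← pk_const hW, ← pk_const hW, pk_add, pk_sub]
    exact pk_congr fun j _ => by ring
  · have : (K : ℤ) + 2 ^ (e + 2) ≤ 2 ^ W := by exact_mod_cast hb
    linarith [hx.2 j hj]

theorem dsum_eq {u : ℕ → ℤ} (h : (x : ℤ) = pk W p u) (h0 : ∀ j < p, 0 ≤ u j)
    (h1 : ∑ j ∈ range p, u j + 1 < 2 ^ W) : (dsum W x : ℤ) = ∑ j ∈ range p, u j := by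
  have hl : ((low W : ℕ) : ℤ) = 2 ^ W - 1 := by
    rw [low_eq, Nat.cast_sub Nat.one_le_two_pow]
    simp
  have hm : pk W p u ≡ ∑ j ∈ range p, u j [ZMOD (2 ^ W - 1)] := by
    refine Int.ModEq.sum fun j _ => ?_
    have : (2 : ℤ) ^ W ≡ 1 [ZMOD (2 ^ W - 1)] := (Int.modEq_iff_dvd.2 (by simp)).symm
    simpa [pow_mul] using (this.pow j).mul_left (u j)
  change ((x % low W : ℕ) : ℤ) = _
  rw [Int.natCast_mod, hl, h, hm.eq]
  exact Int.emod_eq_of_lt (sum_nonneg fun j hj => h0 j (mem_range.1 hj)) (by linarith)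

theorem sum_off_lt {a : ℕ → ℤ} (ha : ∀ k < n, |a k| ≤ K) (h : 2 * n * K + 1 < 2 ^ W) :
    ∑ k ∈ range n, (a k + K) + 1 < 2 ^ W := by
  have h1 := sum_le_card_nsmul (range n) (fun k => a k + K) (2 * K) fun k hk => by
    linarith [(abs_le.1 (ha k (mem_range.1 hk))).2]
  have h2 : 2 * (n : ℤ) * K + 1 < 2 ^ W := by exact_mod_cast h
  simp only [card_range, nsmul_eq_mul] at h1
  linarith

theorem vm_core {Kx e y S σ : ℕ} {D : Rows} {c : ℕ → ℕ → ℤ} {a : ℕ → ℤ} {f : ℕ → Bool}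
    (h : chk (Nat.add y
      (Nat.mul (Nat.add (Nat.shiftLeft 1 e) (Nat.mul n (Nat.mul Kx K))) (ones W p)))
      (Nat.add (Nat.mul Kx S) (Nat.mul (Nat.mul K σ) (ones W p))) (msk W (Nat.add e 1) p) f = true)
    (hD : Mat W p K n D c) (hS : S = D.sum) (ha : ∀ k < n, |a k| ≤ Kx)
    (hy : (y : ℤ) = ∑ k ∈ range n, (a k + Kx) * D.get k)
    (hσ : (σ : ℤ) = ∑ k ∈ range n, (a k + Kx))
    (he : e + 1 ≤ W) (hb : n * (Kx * K) + 2 ^ (e + 2) ≤ 2 ^ W) :
    ∃ y, f y = true ∧ Vec W p (2 ^ e) y (fun j => ∑ k ∈ range n, a k * c k j) ∧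
      ∀ j < p, ∑ k ∈ range n, a k * c k j < 2 ^ e := by
  have hW : 0 < W := by omega
  refine chk_sound h he ?_ fun j hj => ?_
  · simp only [Nat.add_eq, Nat.mul_eq, shl_eq]
    push_cast
    rw [hy, hσ, hS, hD.sum, ← pk_add, ← offset_dot hW Kx K a c, pk_const hW,
      sum_congr rfl fun k hk => by rw [(hD.2 k (mem_range.1 hk)).1]]
    ring
  · have t1 := abs_sum_mul_le (c := fun k => c k j) ha fun k hk => (hD.2 k hk).2 j hj
    have : (n : ℤ) * (Kx * K) + 2 ^ (e + 2) ≤ 2 ^ W := by exact_mod_cast hb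
    linarith

/-- Vector times matrix. -/
theorem vm_sound {Kx e S : ℕ} {D : Rows} {c : ℕ → ℕ → ℤ} {f : ℕ → Bool}
    (h : vm W p n Kx K e D S x f = true) (hx : Vec W n Kx x v) (hD : Mat W p K n D c)
    (hS : S = D.sum) (he : e + 1 ≤ W) (h1 : 2 * n * Kx + 1 < 2 ^ W)
    (hb : n * (Kx * K) + 2 ^ (e + 2) ≤ 2 ^ W) :
    ∃ y, f y = true ∧ Vec W p (2 ^ e) y (fun j => ∑ k ∈ range n, v k * c k j) ∧
      ∀ j < p, ∑ k ∈ range n, v k * c k j < 2 ^ e := by
  refine vm_core h hD hS hx.2 ?_ (dsum_eq hx.1 (fun j hj => ?_) (sum_off_lt hx.2 h1)) he hb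
  · rw [dot_eq, hD.1]
    push_cast
    refine sum_congr rfl fun k hk => ?_
    have hk := mem_range.1 hk
    rw [hx.ent (by nlinarith) hk]
  · linarith [(abs_le.1 (hx.2 j hj)).1]

/-- Column `d` of `A` times matrix. -/
theorem vmT_sound {Kx e S SA d q : ℕ} {A D : Rows} {a c : ℕ → ℕ → ℤ} {f : ℕ → Bool}
    (h : vmT W p n Kx K e A SA d D S f = true) (hA : Mat W q Kx n A a) (hSA : SA = A.sum)
    (hd : d < q) (hD : Mat W p K n D c) (hS : S = D.sum) (he : e + 1 ≤ W)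
    (h1 : 2 * n * Kx + 1 < 2 ^ W) (hb : n * (Kx * K) + 2 ^ (e + 2) ≤ 2 ^ W) :
    ∃ y, f y = true ∧ Vec W p (2 ^ e) y (fun j => ∑ k ∈ range n, a k d * c k j) ∧
      ∀ j < p, ∑ k ∈ range n, a k d * c k j < 2 ^ e := by
  refine vm_core h hD hS (a := fun k => a k d) (fun k hk => (hA.2 k hk).2 d hd) ?_ ?_ he hb
  · rw [dotT_eq, hA.1]
    push_cast
    refine sum_congr rfl fun k hk => ?_
    have hk := mem_range.1 hk
    rw [Nat.mul_eq, (hA.2 k hk).ent (by nlinarith) hd]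
  · rw [land_shr, hSA]
    refine bits_pk le_rfl (hA.sum.trans (pk_sum _ _ _ _)) (fun j hj => ⟨sum_nonneg fun k hk => ?_,
      ?_⟩) d hd
    · linarith [(abs_le.1 ((hA.2 k (mem_range.1 hk)).2 j hj)).1]
    · linarith [sum_off_lt (a := fun k => a k j) (fun k hk => (hA.2 k hk).2 j hj) h1]

theorem pk_split (W q p : ℕ) (u : ℕ → ℤ) :
    pk W (q + p) u = pk W q u + pk W p (fun j => u (q + j)) * 2 ^ (W * q) := by
  simp only [pk, sum_range_add, sum_mul]
  congr 1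
  exact sum_congr rfl fun j _ => by rw [mul_add, pow_add]; ring

theorem hadA_eq (W : ℕ) : ∀ n x y : ℕ, (hadA W (low W) (W * 16) (low (W * 16)) n x y : ℤ) =
    pk W (16 * n) fun j => (bits x (W * j) W : ℤ) * bits y (W * j) W
  | 0, _, _ => rfl
  | n + 1, x, y => by
    change ((hcell W (low W) (Nat.land x (low (W * 16))) (Nat.land y (low (W * 16))) +
      Nat.shiftLeft (hadA W (low W) (W * 16) (low (W * 16)) n (Nat.shiftRight x (W * 16))
        (Nat.shiftRight y (W * 16))) (W * 16) : ℕ) : ℤ) = _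
    rw [show 16 * (n + 1) = 16 + 16 * n by ring, pk_split, shl_eq, Nat.cast_add, Nat.cast_mul,
      hadA_eq W n]
    congr 1
    · rw [pk_congr (w := fun j => (bits (x % 2 ^ (W * 16)) (W * j) W : ℤ) *
        bits (y % 2 ^ (W * 16)) (W * j) W) fun j hj => by
          rw [bits_mod (by nlinarith), bits_mod (by nlinarith)], land_low, land_low]
      generalize x % 2 ^ (W * 16) = a
      generalize y % 2 ^ (W * 16) = b
      simp only [hcell, land_low, shr_eq, shl_eq, Nat.add_eq, Nat.mul_eq, Nat.div_div_eq_div_mul,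
        ← pow_add, bits, pk, sum_range_succ, range_zero, sum_empty, mul_zero, pow_zero, Nat.div_one]
      push_cast
      ring_nf
    · push_cast
      congr 1
      exact pk_congr fun j _ => by rw [shr_eq, shr_eq, bits_div, bits_div, mul_add]

/-- Entrywise product. -/
theorem vv_sound {Kx Ky e : ℕ} {f : ℕ → Bool} (h : vv W n Kx Ky e x y f = true)
    (hx : Vec W (16 * n) Kx x v) (hy : Vec W (16 * n) Ky y w) (he : e + 1 ≤ W)
    (h1 : 2 * Kx < 2 ^ W) (h2 : 2 * Ky < 2 ^ W) (hb : Kx * Ky + 2 ^ (e + 2) ≤ 2 ^ W) :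
    ∃ z, f z = true ∧ Vec W (16 * n) (2 ^ e) z (fun j => v j * w j) ∧
      ∀ j < 16 * n, v j * w j < 2 ^ e := by
  have hW : 0 < W := by omega
  refine chk_sound h he ?_ fun j hj => ?_
  · have e1 : (had W n x y : ℤ) = pk W (16 * n) fun j => (v j + Kx) * (w j + Ky) :=
      (hadA_eq W n x y).trans (pk_congr fun j hj => by rw [hx.ent h1 hj, hy.ent h2 hj])
    simp only [Nat.add_eq, Nat.mul_eq, shl_eq]
    push_cast
    rw [e1, hx.1, hy.1, ← pk_const hW, pk_mul, pk_mul, pk_add, pk_add, pk_sub]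
    exact pk_congr fun j _ => by ring
  · have : (Kx : ℤ) * Ky + 2 ^ (e + 2) ≤ 2 ^ W := by exact_mod_cast hb
    have t := mul_le_mul (hx.2 j hj) (hy.2 j hj) (abs_nonneg _) (Nat.cast_nonneg _)
    rw [abs_mul]
    linarith

theorem xor_pk : ∀ {p x y : ℕ} {a b : ℕ → ℕ}, (x : ℤ) = pk W p (fun j => a j) →
    (y : ℤ) = pk W p (fun j => b j) → (∀ j < p, a j < 2 ^ W) → (∀ j < p, b j < 2 ^ W) →
    (Nat.xor x y : ℤ) = pk W p fun j => (a j ^^^ b j : ℕ)
  | 0, x, y, _, _, hx, hy, _, _ => by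
    have hx' : x = 0 := Int.natCast_eq_zero.1 hx
    have hy' : y = 0 := Int.natCast_eq_zero.1 hy
    subst hx' hy'
    rfl
  | p + 1, x, y, a, b, hx, hy, ha, hb => by
    have key : ∀ {x : ℕ} {a : ℕ → ℕ}, (x : ℤ) = pk W (p + 1) (fun j => a j) → a 0 < 2 ^ W →
        x % 2 ^ W = a 0 ∧ ((x / 2 ^ W : ℕ) : ℤ) = pk W p fun j => a (j + 1) := fun {x a} h h0 => by
      rw [pk_succ] at h
      have h0' : (a 0 : ℤ) < 2 ^ W := by exact_mod_cast h0
      constructor
      · have : ((x % 2 ^ W : ℕ) : ℤ) = a 0 := by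
          push_cast
          rw [h, Int.add_mul_emod_self_left, Int.emod_eq_of_lt (Nat.cast_nonneg _) h0']
        exact_mod_cast this
      · push_cast
        rw [h, Int.add_mul_ediv_left _ _ (by positivity),
          Int.ediv_eq_zero_of_lt (Nat.cast_nonneg _) h0', zero_add]
    obtain ⟨x1, x2⟩ := key hx (ha 0 (by omega))
    obtain ⟨y1, y2⟩ := key hy (hb 0 (by omega))
    have h3 : Nat.xor x y = (a 0 ^^^ b 0) + 2 ^ W * Nat.xor (x / 2 ^ W) (y / 2 ^ W) := by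
      change x ^^^ y = _ + 2 ^ W * (x / 2 ^ W ^^^ y / 2 ^ W)
      rw [← x1, ← y1, ← Nat.xor_mod_two_pow, ← Nat.xor_div_two_pow, Nat.mod_add_div]
    rw [h3, pk_succ, Nat.cast_add, Nat.cast_mul, xor_pk (a := fun j => a (j + 1))
      (b := fun j => b (j + 1)) x2 y2 (fun j hj => ha _ (by omega)) fun j hj => hb _ (by omega)]
    push_cast
    rfl

theorem xor_low {d e : ℕ} (h : d < 2 ^ e) : d ^^^ low e = 2 ^ e - (d + 1) := by
  refine Nat.eq_of_testBit_eq fun i => ?_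
  rw [low_eq, Nat.testBit_xor, Nat.testBit_two_pow_sub_one, Nat.testBit_two_pow_sub_succ h]
  by_cases hi : i < e
  · simp [hi]
  · simp [hi, Nat.testBit_lt_two_pow (h.trans_le (Nat.pow_le_pow_right (by norm_num) (not_lt.1 hi)))]

/-- Absolute values, up to one unit. -/
theorem vabs_sound {e : ℕ} (hx : Vec W p (2 ^ e) x v) (hv : ∀ j < p, v j < 2 ^ e)
    (he : e + 1 ≤ W) : ∃ u : ℕ → ℤ, (vabs W e p x : ℤ) = pk W p u ∧
      ∀ j < p, 0 ≤ u j ∧ u j < 2 ^ e ∧ u j ≤ |v j| ∧ |v j| ≤ u j + 1 := by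
  have hW : 0 < W := by omega
  have hd : ∀ j < p, (bits x (W * j) (e + 1) : ℤ) = v j + (2 ^ e : ℕ) :=
    bits_pk he hx.1 fun j hj => by
      have := (abs_le.1 (hx.2 j hj)).1
      have := hv j hj
      push_cast at *
      rw [pow_succ]
      constructor <;> linarith
  have hsplit : ∀ j, bits x (W * j) (e + 1) =
      bits x (W * j) e + 2 ^ e * bits x (e + W * j) 1 := fun j => by
    rw [bits, Nat.mod_pow_succ, bits, bits, Nat.div_div_eq_div_mul, ← pow_add, add_comm e, pow_one]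
  have ht : ∀ j, bits x (e + W * j) 1 ≤ 1 := fun j => Nat.lt_succ_iff.1 (bits_lt _ _ _)
  have m1 : msk W 1 p = ones W p := Nat.one_mul _
  have hT := land_shr_msk hW (b := 1) hW p x e
  rw [m1] at hT
  have hS : ((ones W p - Nat.land (Nat.shiftRight x e) (ones W p) : ℕ) : ℤ) =
      pk W p fun j => ((1 - bits x (e + W * j) 1 : ℕ) : ℤ) := by
    have hle : Nat.land (Nat.shiftRight x e) (ones W p) ≤ ones W p := Nat.and_le_right
    rw [Nat.cast_sub hle, hT, ones_eq hW, pk_sub]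
    exact pk_congr fun j _ => by rw [Nat.cast_sub (ht j)]; rfl
  have hN : ((low e * (ones W p - Nat.land (Nat.shiftRight x e) (ones W p)) : ℕ) : ℤ) =
      pk W p fun j => ((low e * (1 - bits x (e + W * j) 1) : ℕ) : ℤ) := by
    rw [Nat.cast_mul, hS, pk_mul]
    exact pk_congr fun j _ => (Nat.cast_mul _ _).symm
  have hee : 2 ^ e ≤ 2 ^ W := Nat.pow_le_pow_right (by norm_num) (by omega)
  have hl : low e < 2 ^ e := by
    rw [low_eq]
    exact Nat.sub_lt (by positivity) one_pos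
  refine ⟨_, xor_pk (land_msk hW (by omega) p x) hN
    (fun j _ => (bits_lt _ _ _).trans_le hee)
    (fun j _ => ((Nat.mul_le_mul_left _ (Nat.sub_le 1 _)).trans_lt (by rwa [mul_one])).trans_le hee),
    fun j hj => ?_⟩
  have h1 := hd j hj
  have h2 := bits_lt x (W * j) e
  rw [hsplit] at h1
  rcases Nat.le_one_iff_eq_zero_or_eq_one.1 (ht j) with h0 | h0
  · rw [h0] at h1 ⊢
    rw [Nat.sub_zero, mul_one, xor_low h2, Nat.cast_sub h2]
    have h3 : ((bits x (W * j) e : ℕ) : ℤ) < 2 ^ e := by exact_mod_cast h2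
    have h4 := Int.natCast_nonneg (bits x (W * j) e)
    push_cast at h1 ⊢
    rw [abs_of_neg (by linarith)]
    refine ⟨?_, ?_, ?_, ?_⟩ <;> linarith
  · rw [h0] at h1 ⊢
    rw [Nat.sub_self, mul_zero, Nat.xor_zero]
    have h3 : ((bits x (W * j) e : ℕ) : ℤ) < 2 ^ e := by exact_mod_cast h2
    have h4 := Int.natCast_nonneg (bits x (W * j) e)
    push_cast at h1 ⊢
    rw [abs_of_nonneg (by linarith)]
    refine ⟨?_, ?_, ?_, ?_⟩ <;> linarith

/-- The sum of the absolute values. -/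
theorem abs_sum_le {e : ℕ} (hx : Vec W p (2 ^ e) x v) (hv : ∀ j < p, v j < 2 ^ e)
    (he : e + 1 ≤ W) (h : p * 2 ^ e + 1 < 2 ^ W) :
    ∑ j ∈ range p, |v j| ≤ dsum W (vabs W e p x) + p := by
  obtain ⟨u, h1, h2⟩ := vabs_sound hx hv he
  have h3 := sum_le_card_nsmul (range p) u (2 ^ e) fun j hj => (h2 j (mem_range.1 hj)).2.1.le
  have h4 : (p : ℤ) * 2 ^ e + 1 < 2 ^ W := by exact_mod_cast h
  simp only [card_range, nsmul_eq_mul] at h3
  rw [dsum_eq h1 (fun j hj => (h2 j hj).1) (by linarith)]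
  have := sum_le_sum fun j (hj : j ∈ range p) => (h2 j (mem_range.1 hj)).2.2.2
  simpa [sum_add_distrib] using this

/-- Meaning of `lyap`. -/
theorem lyap_sound {g b N e G c i : ℕ} {P A : Rows} {f : ℕ → Bool}
    (h : lyap W g b N e G P A c i f = true) (hg : 0 < g) (hb : 0 < b) (hbW : b ≤ W)
    (hP : g * P.len = N) (hA : g * A.len = N) (h0 : G * c ≤ i) (h1 : i < G * c + G) (hi : i < N)
    (he : e + 1 ≤ W) (h2 : 2 * N * 2 ^ (b - 1) + 1 < 2 ^ W)
    (h3 : N * (2 ^ (b - 1) * 2 ^ (b - 1)) + 2 ^ (e + 2) ≤ 2 ^ W) :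
    ∃ y, f y = true ∧ Vec W (N - G * c) (2 ^ (e + 1)) y fun j =>
      -(∑ k ∈ range N, ent W g b P i k * ent W g b A k (G * c + j) +
        ∑ k ∈ range N, ent W g b A k i * ent W g b P k (G * c + j)) := by
  simp only [lyap, strict_eq, force_eq, shl_eq, one_mul, Nat.mul_eq, Nat.sub_eq, Nat.add_eq] at h
  have hx : Vec W N (2 ^ (b - 1)) ((unp g b 0 (msk W b N) P).get i) fun j => ent W g b P i j := by
    simpa using (mat_unp hg hb hbW N 0 P).2 i (hP ▸ hi)
  obtain ⟨y1, f1, v1, -⟩ := vm_sound h hx (hA ▸ mat_unp hg hb hbW (N - G * c) (G * c) A) rfl he h2 h3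
  obtain ⟨y2, f2, v2, -⟩ := vmT_sound f1 (hA ▸ mat_unp hg hb hbW G (G * c) A) rfl (by omega)
    (hP ▸ mat_unp hg hb hbW (N - G * c) (G * c) P) rfl he h2 h3
  refine ⟨_, f2, ?_⟩
  have := (v1.add v2).neg (by omega)
  rw [← two_mul, ← pow_succ', Nat.add_sub_cancel' h0] at this
  exact this

theorem colA_eq (W s : ℕ) (A : Rows) : (colA W s (low W) (W * 16) A : ℤ) =
    pk W A.len fun k => bits (A.get k) s W := by
  induction A with
  | nil => rfl
  | cons a0 a1 a2 a3 a4 a5 a6 a7 a8 a9 a10 a11 a12 a13 a14 a15 u ih =>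
    change ((_ + Nat.shiftLeft (colA W s (low W) (W * 16) u) (W * 16) : ℕ) : ℤ) = _
    rw [len_cons, add_comm u.len, pk_split, shl_eq (colA _ _ _ _ u), Nat.cast_add, Nat.cast_mul, ih]
    congr 1
    · simp only [land_shr, shl_eq, Nat.add_eq, pk, sum_range_succ, range_zero, sum_empty, get_cons]
      norm_num
      ring
    · push_cast
      congr 1
      exact pk_congr fun j _ => by rw [get_cons_add]

/-- A column as a vector. -/
theorem Mat.col {q d : ℕ} {A : Rows} {a : ℕ → ℕ → ℤ} (hA : Mat W q K n A a) (hd : d < q)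
    (hK : 2 * K < 2 ^ W) : Vec W n K (col W d A) fun k => a k d := by
  refine ⟨(colA_eq W (W * d) A).trans ?_, fun k hk => (hA.2 k hk).2 d hd⟩
  rw [hA.1]
  exact pk_congr fun k hk => (hA.2 k hk).ent hK hd

theorem Vec.inj (h : Vec W p K x v) (h' : Vec W p K x w) (hK : 2 * K < 2 ^ W) {j : ℕ} (hj : j < p) :
    v j = w j :=
  add_right_cancel ((h.ent hK hj).symm.trans (h'.ent hK hj))

/-- The check of symmetry. -/
theorem sym_sound {g b N G : ℕ} {P : Rows} (h : Cov (symRows W g b N G P) N) (hg : 0 < g)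
    (hb : 0 < b) (hbW : b < W) (hP : g * P.len = N) :
    ∀ i < N, ∀ j < N, ent W g b P i j = ent W g b P j i := by
  intro i hi j hj
  obtain ⟨c, a, q, ha, hq, hc⟩ := h i hi
  have h' := allR_spec hc i ha hq
  simp only [strict_eq, force_eq, bnd_iff, Nat.ble_eq, Nat.add_eq, Nat.mul_eq, Nat.sub_eq,
    Nat.beq_eq] at h'
  obtain ⟨⟨g1, g2⟩, g3⟩ := h'
  have hK : 2 * 2 ^ (b - 1) < 2 ^ W := by
    rw [← pow_succ', Nat.sub_add_cancel hb]
    exact Nat.pow_lt_pow_right (by norm_num) hbW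
  have hx : Vec W N (2 ^ (b - 1)) ((unp g b 0 (msk W b N) P).get i) fun j => ent W g b P i j := by
    simpa using (mat_unp hg hb hbW.le N 0 P).2 i (hP ▸ hi)
  have hy := (hP ▸ mat_unp hg hb hbW.le G (G * c) P).col (d := i - G * c) (by omega) hK
  rw [g3, Nat.add_sub_cancel' g1] at hy
  exact hx.inj hy hK hj

/-- A Lyapunov inequality for stored matrices: `-(P A + Aᵀ P) ≥ -N 2 ^ e`. -/
theorem lyap_psd {g b N e e' g' b' : ℕ} {P A R : Rows}
    (h : Cov (psdTri W b' e (2 ^ (e' + 1)) N g' R (lyap W g b N e' (16 * g') P A)) N)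
    (hs : ∀ i < N, ∀ j < N, ent W g b P i j = ent W g b P j i)
    (hg : 0 < g) (hb : 0 < b) (hbW : b ≤ W) (hP : g * P.len = N) (hA : g * A.len = N)
    (hg' : 0 < g') (hb' : 0 < b') (hbW' : b' ≤ W) (he : e + 1 ≤ W) (he' : e' + 1 ≤ W)
    (h1 : (N + 16 * g') * 2 ^ b' < 2 ^ W)
    (h2 : 2 ^ (e' + 1) + (N + 16 * g') * (2 ^ (b' - 1) * 2 ^ (b' - 1)) + 2 ^ (e + 2) ≤ 2 ^ W)
    (h3 : 2 * N * 2 ^ (b - 1) + 1 < 2 ^ W)
    (h4 : N * (2 ^ (b - 1) * 2 ^ (b - 1)) + 2 ^ (e' + 2) ≤ 2 ^ W) (x : ℕ → ℝ) :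
    2 * ∑ i ∈ range N, ∑ k ∈ range N, (ent W g b P i k : ℝ) *
      (x i * ∑ j ∈ range N, (ent W g b A k j : ℝ) * x j) ≤ N * 2 ^ e * ∑ i ∈ range N, x i ^ 2 := by
  have := psd_tri h (η := 0) (M := fun i j =>
    -(∑ k ∈ range N, (ent W g b P i k : ℝ) * ent W g b A k j +
      ∑ k ∈ range N, (ent W g b A k i : ℝ) * ent W g b P k j)) hg' hb' hbW' he h1 h2
    (fun i hi j hj => by
      rw [add_comm]
      congr 2 <;> exact sum_congr rfl fun k hk => by
        first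
          | rw [hs k (mem_range.1 hk) j hj, mul_comm]
          | rw [hs i hi k (mem_range.1 hk), mul_comm])
    (fun c i f h0 h1 hi hf => by
      obtain ⟨y, f1, v1⟩ := lyap_sound hf hg hb hbW hP hA h0 h1 hi he' h3 h4
      refine ⟨y, _, f1, v1.1, v1.2, fun j _ hij => ?_⟩
      rw [Nat.add_sub_cancel' (h0.trans hij)]
      push_cast
      simp) x
  have e1 : ∑ i ∈ range N, ∑ j ∈ range N,
      (∑ k ∈ range N, (ent W g b P i k : ℝ) * ent W g b A k j) * (x i * x j) =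
      ∑ i ∈ range N, ∑ k ∈ range N, (ent W g b P i k : ℝ) *
        (x i * ∑ j ∈ range N, (ent W g b A k j : ℝ) * x j) := by
    refine sum_congr rfl fun i _ => ?_
    simp only [sum_mul, mul_sum]
    rw [sum_comm]
    exact sum_congr rfl fun k _ => sum_congr rfl fun j _ => by ring
  have e2 : ∑ i ∈ range N, ∑ j ∈ range N,
      (∑ k ∈ range N, (ent W g b A k i : ℝ) * ent W g b P k j) * (x i * x j) =
      ∑ i ∈ range N, ∑ j ∈ range N,
        (∑ k ∈ range N, (ent W g b P i k : ℝ) * ent W g b A k j) * (x i * x j) := by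
    rw [sum_comm]
    refine sum_congr rfl fun j hj => sum_congr rfl fun i _ => ?_
    rw [mul_comm (x i)]
    congr 1
    exact sum_congr rfl fun k hk => by rw [hs k (mem_range.1 hk) j (mem_range.1 hj), mul_comm]
  simp only [neg_mul, add_mul, sum_neg_distrib, sum_add_distrib, add_zero] at this
  rw [e2, e1] at this
  linarith

end Pool.Agent.Lib.KLA
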